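import Mathlib

set_option autoImplicit false
open scoped Classical
open Filter MeasureTheory

namespace Pool.Agent.H27R3.DLA

/-- The discrete wedge `W_{θ₁,θ₂}` in `ℤ²`: points `(x,y)` with `x ≥ 0` and
`arctan (y/x) ∈ [θ₁,θ₂]`, with `(0,0) ∈ W` and `arctan (y/0) = ±π/2` for `±y > 0`. -/
def wedge (θ₁ θ₂ : ℝ) : Set (ℤ × ℤ) :=
  {z | z = (0, 0) ∨
    (0 < z.1 ∧ Real.arctan ((z.2 : ℝ) / (z.1 : ℝ)) ∈ Set.Icc θ₁ θ₂) ∨
    (z.1 = 0 ∧ 0 < z.2 ∧ Real.pi / 2 ∈ Set.Icc θ₁ θ₂) ∨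
    (z.1 = 0 ∧ z.2 < 0 ∧ -(Real.pi / 2) ∈ Set.Icc θ₁ θ₂)}

/-- The four nearest neighbours of a lattice point. -/
def nb4 (z : ℤ × ℤ) : Finset (ℤ × ℤ) :=
  {(z.1 + 1, z.2), (z.1 - 1, z.2), (z.1, z.2 + 1), (z.1, z.2 - 1)}

/-- The neighbours of `z` inside `W`. -/
noncomputable def nb (W : Set (ℤ × ℤ)) (z : ℤ × ℤ) : Finset (ℤ × ℤ) :=
  (nb4 z).filter (fun w => w ∈ W)

/-- `hit W B y k z` is the probability that simple random walk on `W` started at `z` hits the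
set `B` within `k` steps and that the first point of `B` it visits is `y`. -/
noncomputable def hit (W : Set (ℤ × ℤ)) (B : Finset (ℤ × ℤ)) (y : ℤ × ℤ) : ℕ → ℤ × ℤ → ℝ
  | 0, z => if z ∈ B ∧ z = y then 1 else 0
  | k + 1, z => if z ∈ B then (if z = y then 1 else 0)
      else (∑ w ∈ nb W z, hit W B y k w) / ((nb W z).card : ℝ)

/-- `hitP W B y z` is the probability that the first point of `B` visited by simple random walk
on `W` started at `z` is `y`. -/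
noncomputable def hitP (W : Set (ℤ × ℤ)) (B : Finset (ℤ × ℤ)) (y z : ℤ × ℤ) : ℝ :=
  ⨆ k : ℕ, hit W B y k z

/-- `h` is the harmonic measure of `{y}` from infinity for the set `B` in `W`: the limit of
`hitP W B y x` as `x → ∞` in `W`. -/
def IsHarm (W : Set (ℤ × ℤ)) (B : Finset (ℤ × ℤ)) (y : ℤ × ℤ) (h : ℝ) : Prop :=
  Tendsto (fun x : W => hitP W B y x) cofinite (nhds h)

/-- The outer boundary of `A` in `W`. -/
noncomputable def bdry (W : Set (ℤ × ℤ)) (A : Finset (ℤ × ℤ)) : Finset (ℤ × ℤ) :=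
  (A.biUnion (nb W)) \ A

/-- The aggregate `A_n = {(0,0), a_1, …, a_n}` (here `a_{i+1}` is written `a i`). -/
noncomputable def cl (a : ℕ → ℤ × ℤ) (n : ℕ) : Finset (ℤ × ℤ) :=
  insert (0, 0) ((Finset.range n).image a)

/-- The sequence of random points `a 0, a 1, …` is DLA in `W`: the point `a n` lies in the outer
boundary of `A_n`, and given the first `n` points it has the law given by the harmonic measure
from infinity of the outer boundary of `A_n` (in particular these limits exist). -/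
structure IsDLA (W : Set (ℤ × ℤ)) {Ω : Type*} [MeasurableSpace Ω] (P : Measure Ω)
    (a : ℕ → Ω → ℤ × ℤ) : Prop where
  meas : ∀ n, Measurable (a n)
  mem : ∀ n, ∀ᵐ ω ∂P, a n ω ∈ bdry W (cl (fun i => a i ω) n)
  law : ∀ (n : ℕ) (h : ℕ → ℤ × ℤ), P {ω | ∀ i < n, a i ω = h i} ≠ 0 →
    ∀ y ∈ bdry W (cl h n), ∃ H : ℝ, IsHarm W (bdry W (cl h n)) y H ∧
      P {ω | (∀ i < n, a i ω = h i) ∧ a n ω = y} = P {ω | ∀ i < n, a i ω = h i} * ENNReal.ofReal H

/-- Euclidean diameter of a finite set of lattice points. -/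
noncomputable def diam (A : Finset (ℤ × ℤ)) : ℝ :=
  Metric.diam ((fun z : ℤ × ℤ => (⟨(z.1 : ℝ), (z.2 : ℝ)⟩ : ℂ)) '' (A : Set (ℤ × ℤ)))

/-- The growth rate `sup {β ≥ 1/2 : limsup diam(A_n)/n^β > 0}`. -/
noncomputable def gr (a : ℕ → ℤ × ℤ) : ℝ :=
  sSup {β : ℝ | 1 / 2 ≤ β ∧
    0 < limsup (fun n : ℕ => ENNReal.ofReal (diam (cl a n) / (n : ℝ) ^ β)) atTop}

end Pool.Agent.H27R3.DLA
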