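import Mathlib

set_option autoImplicit false
open scoped Classical
open Finset

namespace Pool.Agent.H27R3.DLA

variable {V : Type*}

/-- ordered Dirichlet sum over a finite set -/
noncomputable def dir (c : V → V → ℝ) (F : Finset V) (v : V → ℝ) : ℝ :=
  ∑ z ∈ F, ∑ w ∈ F, c z w * (v z - v w) ^ 2

theorem dir_nonneg (c : V → V → ℝ) (hc : ∀ z w, 0 ≤ c z w) (F : Finset V) (v : V → ℝ) :
    0 ≤ dir c F v :=
  sum_nonneg fun z _ => sum_nonneg fun w _ => mul_nonneg (hc z w) (sq_nonneg _)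

/-- summation by parts -/
theorem sum_by_parts (c : V → V → ℝ) (hc : ∀ z w, c z w = c w z) (F : Finset V) (v g : V → ℝ) :
    2 * ∑ z ∈ F, g z * ∑ w ∈ F, c z w * (v z - v w) =
      ∑ z ∈ F, ∑ w ∈ F, c z w * (v z - v w) * (g z - g w) := by
  have h1 : ∑ z ∈ F, ∑ w ∈ F, c z w * (v z - v w) * (g z - g w) =
      ∑ z ∈ F, ∑ w ∈ F, c z w * (v z - v w) * g z -
        ∑ z ∈ F, ∑ w ∈ F, c z w * (v z - v w) * g w := by
    rw [← sum_sub_distrib]
    refine sum_congr rfl fun z _ => ?_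
    rw [← sum_sub_distrib]
    exact sum_congr rfl fun w _ => by ring
  have h2 : ∑ z ∈ F, ∑ w ∈ F, c z w * (v z - v w) * g w =
      - ∑ z ∈ F, ∑ w ∈ F, c z w * (v z - v w) * g z := by
    rw [sum_comm, ← sum_neg_distrib]
    refine sum_congr rfl fun z _ => ?_
    rw [← sum_neg_distrib]
    exact sum_congr rfl fun w _ => by rw [hc w z]; ring
  have h3 : ∑ z ∈ F, g z * ∑ w ∈ F, c z w * (v z - v w) =
      ∑ z ∈ F, ∑ w ∈ F, c z w * (v z - v w) * g z := by
    refine sum_congr rfl fun z _ => ?_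
    rw [mul_sum]
    exact sum_congr rfl fun w _ => by ring
  rw [h1, h2, h3]
  ring

/-- Caccioppoli inequality -/
theorem cacc (c : V → V → ℝ) (hc : ∀ z w, c z w = c w z) (F : Finset V) (v φ : V → ℝ)
    (hsub : ∀ z ∈ F, φ z ≠ 0 → v z * ∑ w ∈ F, c z w * (v z - v w) ≤ 0) :
    ∑ z ∈ F, ∑ w ∈ F, c z w * (φ z * v z - φ w * v w) ^ 2 ≤
      ∑ z ∈ F, ∑ w ∈ F, c z w * (v z * v w * (φ z - φ w) ^ 2) := by
  have h1 := sum_by_parts c hc F v (fun z => φ z ^ 2 * v z)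
  have h2 : ∑ z ∈ F, (φ z ^ 2 * v z) * ∑ w ∈ F, c z w * (v z - v w) ≤ 0 := by
    refine sum_nonpos fun z hz => ?_
    by_cases h : φ z = 0
    · simp [h]
    · have := hsub z hz h
      have h3 : (φ z ^ 2 * v z) * ∑ w ∈ F, c z w * (v z - v w) =
          φ z ^ 2 * (v z * ∑ w ∈ F, c z w * (v z - v w)) := by ring
      rw [h3]
      exact mul_nonpos_of_nonneg_of_nonpos (sq_nonneg _) this
  have h4 : ∑ z ∈ F, ∑ w ∈ F, c z w * (v z - v w) * (φ z ^ 2 * v z - φ w ^ 2 * v w) =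
      ∑ z ∈ F, ∑ w ∈ F, c z w * (φ z * v z - φ w * v w) ^ 2 -
      ∑ z ∈ F, ∑ w ∈ F, c z w * (v z * v w * (φ z - φ w) ^ 2) := by
    rw [← sum_sub_distrib]
    refine sum_congr rfl fun z _ => ?_
    rw [← sum_sub_distrib]
    exact sum_congr rfl fun w _ => by ring
  have h5 : ∑ z ∈ F, ∑ w ∈ F, c z w * (v z - v w) * (φ z ^ 2 * v z - φ w ^ 2 * v w) ≤ 0 := by
    rw [← h1]
    linarith
  linarith

/-- hypotheses of the hole-filling argument -/
structure HF (F : Finset V) (c : V → V → ℝ) (v : V → ℝ) (ℓ : V → ℕ) (ρ : ℕ) : Prop where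
  symm : ∀ z w, c z w = c w z
  nonneg : ∀ z w, 0 ≤ c z w
  deg : ∀ z ∈ F, ∑ w ∈ F, c z w ≤ 4
  lip : ∀ z w, c z w ≠ 0 → ℓ z ≤ ℓ w + 1
  vnn : ∀ z, 0 ≤ v z
  sub : ∀ z ∈ F, ℓ z ≠ 0 → v z * ∑ w ∈ F, c z w * (v z - v w) ≤ 0
  ring : ∀ s, 1 ≤ s → s ≤ ρ → ∀ z ∈ F, ℓ z = s →
    v z ^ 2 ≤ 8 * s * dir c (F.filter (fun w => ℓ w = s)) v
  card : ∀ s, 1 ≤ s → (F.filter (fun w => ℓ w = s)).card ≤ 8 * s
  total : dir c F v ≤ 8

variable {F : Finset V} {c : V → V → ℝ} {v : V → ℝ} {ℓ : V → ℕ} {ρ : ℕ}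

noncomputable def cut (r n : ℕ) : ℝ := min 1 (((n - r : ℕ) : ℝ) / r)

theorem cut_zero {r n : ℕ} (h : n ≤ r) : cut r n = 0 := by
  unfold cut
  rw [Nat.sub_eq_zero_of_le h]
  simp

theorem cut_one {r n : ℕ} (hr : 1 ≤ r) (h : 2 * r ≤ n) : cut r n = 1 := by
  unfold cut
  apply min_eq_left
  have hr0 : (0 : ℝ) < r := by exact_mod_cast hr
  rw [le_div_iff₀ hr0, one_mul]
  have : r ≤ n - r := by omega
  exact_mod_cast this

theorem cut_lip {r n m : ℕ} (hr : 1 ≤ r) (h1 : n ≤ m + 1) (h2 : m ≤ n + 1) :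
    (cut r n - cut r m) ^ 2 ≤ 1 / (r : ℝ) ^ 2 := by
  have hr0 : (0 : ℝ) < r := by exact_mod_cast hr
  have h : |cut r n - cut r m| ≤ 1 / r := by
    unfold cut
    refine (abs_min_sub_min_le_max _ _ _ _).trans ?_
    rw [sub_self, abs_zero, ← sub_div, abs_div, abs_of_pos hr0]
    apply max_le (by positivity)
    apply div_le_div_of_nonneg_right _ hr0.le
    rw [abs_le]
    constructor
    · have : ((m - r : ℕ) : ℝ) ≤ ((n - r : ℕ) : ℝ) + 1 := by
        exact_mod_cast (by omega : m - r ≤ n - r + 1)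
      linarith
    · have : ((n - r : ℕ) : ℝ) ≤ ((m - r : ℕ) : ℝ) + 1 := by
        exact_mod_cast (by omega : n - r ≤ m - r + 1)
      linarith
  rw [← sq_abs, show 1 / (r : ℝ) ^ 2 = (1 / (r : ℝ)) ^ 2 by rw [div_pow, one_pow]]
  exact pow_le_pow_left₀ (abs_nonneg _) h 2

theorem HF.step (H : HF F c v ℓ ρ) (r : ℕ) (hr : 1 ≤ r) (h2r : 2 * r ≤ ρ) :
    dir c (F.filter (fun w => 2 * r + 1 ≤ ℓ w)) v ≤
      1024 * ∑ s ∈ Icc r (2 * r), dir c (F.filter (fun w => ℓ w = s)) v := by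
  have hr0 : (0 : ℝ) < r := by exact_mod_cast hr
  set φ : V → ℝ := fun z => cut r (ℓ z) with hφ
  have h1 := cacc c H.symm F v φ (fun z hz hne => H.sub z hz (fun h0 => hne (by
    rw [hφ]; exact cut_zero (by omega))))
  -- lower bound for the left side
  have h2 : dir c (F.filter (fun w => 2 * r + 1 ≤ ℓ w)) v ≤
      ∑ z ∈ F, ∑ w ∈ F, c z w * (φ z * v z - φ w * v w) ^ 2 := by
    unfold dir
    calc ∑ z ∈ F.filter (fun w => 2 * r + 1 ≤ ℓ w), ∑ w ∈ F.filter (fun w => 2 * r + 1 ≤ ℓ w),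
          c z w * (v z - v w) ^ 2
        = ∑ z ∈ F.filter (fun w => 2 * r + 1 ≤ ℓ w), ∑ w ∈ F.filter (fun w => 2 * r + 1 ≤ ℓ w),
          c z w * (φ z * v z - φ w * v w) ^ 2 := by
          refine sum_congr rfl fun z hz => sum_congr rfl fun w hw => ?_
          rw [mem_filter] at hz hw
          have e1 : φ z = 1 := cut_one hr (by omega)
          have e2 : φ w = 1 := cut_one hr (by omega)
          rw [e1, e2, one_mul, one_mul]
      _ ≤ ∑ z ∈ F.filter (fun w => 2 * r + 1 ≤ ℓ w), ∑ w ∈ F,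
          c z w * (φ z * v z - φ w * v w) ^ 2 :=
          sum_le_sum fun z _ => sum_le_sum_of_subset_of_nonneg (filter_subset _ _)
            (fun w _ _ => mul_nonneg (H.nonneg z w) (sq_nonneg _))
      _ ≤ _ := sum_le_sum_of_subset_of_nonneg (filter_subset _ _)
            (fun z _ _ => sum_nonneg fun w _ => mul_nonneg (H.nonneg z w) (sq_nonneg _))
  -- upper bound for the right side
  set ind : V → ℝ := fun z => if r ≤ ℓ z ∧ ℓ z ≤ 2 * r then v z ^ 2 else 0 with hind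
  have hind0 : ∀ z, 0 ≤ ind z := fun z => by
    rw [hind]; simp only; split_ifs
    · positivity
    · exact le_rfl
  have h3 : ∑ z ∈ F, ∑ w ∈ F, c z w * (v z * v w * (φ z - φ w) ^ 2) ≤
      4 / (r : ℝ) ^ 2 * ∑ z ∈ F, ind z := by
    have h31 : ∀ z w, c z w * (v z * v w * (φ z - φ w) ^ 2) ≤
        1 / (2 * (r : ℝ) ^ 2) * (c z w * ind z) + 1 / (2 * (r : ℝ) ^ 2) * (c z w * ind w) := by
      intro z w
      by_cases hcz : c z w = 0
      · simp [hcz]
      have l1 := H.lip z w hcz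
      have l2 := H.lip w z (by rwa [H.symm w z])
      have hcp : 0 ≤ c z w := H.nonneg z w
      by_cases hA : (r ≤ ℓ z ∧ ℓ z ≤ 2 * r) ∧ (r ≤ ℓ w ∧ ℓ w ≤ 2 * r)
      · have e1 : ind z = v z ^ 2 := by rw [hind]; simp only; rw [if_pos hA.1]
        have e2 : ind w = v w ^ 2 := by rw [hind]; simp only; rw [if_pos hA.2]
        rw [e1, e2]
        have h5 : v z * v w ≤ (v z ^ 2 + v w ^ 2) / 2 := by nlinarith [sq_nonneg (v z - v w)]
        have h6 := cut_lip hr l1 l2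
        have h7 : v z * v w * (φ z - φ w) ^ 2 ≤ (v z ^ 2 + v w ^ 2) / 2 * (1 / (r : ℝ) ^ 2) :=
          mul_le_mul h5 h6 (sq_nonneg _) (by positivity)
        calc c z w * (v z * v w * (φ z - φ w) ^ 2)
            ≤ c z w * ((v z ^ 2 + v w ^ 2) / 2 * (1 / (r : ℝ) ^ 2)) :=
              mul_le_mul_of_nonneg_left h7 hcp
          _ = _ := by field_simp
      · have e : φ z = φ w := by
          rw [hφ]
          simp only
          rcases Nat.lt_or_ge (ℓ z) r with a | a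
          · rw [cut_zero (by omega), cut_zero (by omega)]
          rcases Nat.lt_or_ge (2 * r) (ℓ z) with b | b
          · rw [cut_one hr (by omega), cut_one hr (by omega)]
          rcases Nat.lt_or_ge (ℓ w) r with a' | a'
          · rw [cut_zero (by omega), cut_zero (by omega)]
          rcases Nat.lt_or_ge (2 * r) (ℓ w) with b' | b'
          · rw [cut_one hr (by omega), cut_one hr (by omega)]
          exact absurd ⟨⟨a, b⟩, ⟨a', b'⟩⟩ hA
        rw [e, sub_self]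
        have := hind0 z
        have := hind0 w
        have h8 : c z w * (v z * v w * (0 : ℝ) ^ 2) = 0 := by ring
        rw [h8]
        positivity
    have h32 : ∑ z ∈ F, ∑ w ∈ F, c z w * (v z * v w * (φ z - φ w) ^ 2) ≤
        ∑ z ∈ F, ∑ w ∈ F, (1 / (2 * (r : ℝ) ^ 2) * (c z w * ind z) +
          1 / (2 * (r : ℝ) ^ 2) * (c z w * ind w)) :=
      sum_le_sum fun z _ => sum_le_sum fun w _ => h31 z w
    have h33 : ∑ z ∈ F, ∑ w ∈ F, (1 / (2 * (r : ℝ) ^ 2) * (c z w * ind z) +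
          1 / (2 * (r : ℝ) ^ 2) * (c z w * ind w)) =
        1 / (r : ℝ) ^ 2 * ∑ z ∈ F, (∑ w ∈ F, c z w) * ind z := by
      have a1 : ∑ z ∈ F, ∑ w ∈ F, c z w * ind w = ∑ z ∈ F, ∑ w ∈ F, c z w * ind z := by
        rw [sum_comm]
        exact sum_congr rfl fun z _ => sum_congr rfl fun w _ => by rw [H.symm w z]
      have a2 : ∑ z ∈ F, (∑ w ∈ F, c z w) * ind z = ∑ z ∈ F, ∑ w ∈ F, c z w * ind z :=
        sum_congr rfl fun z _ => by rw [sum_mul]
      simp_rw [sum_add_distrib, ← mul_sum]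
      rw [a1, a2]
      field_simp
      ring
    have h34 : ∑ z ∈ F, (∑ w ∈ F, c z w) * ind z ≤ ∑ z ∈ F, 4 * ind z :=
      sum_le_sum fun z hz => mul_le_mul_of_nonneg_right (H.deg z hz) (hind0 z)
    rw [← mul_sum] at h34
    calc _ ≤ _ := h32
      _ = _ := h33
      _ ≤ 1 / (r : ℝ) ^ 2 * (4 * ∑ z ∈ F, ind z) := by
          apply mul_le_mul_of_nonneg_left h34; positivity
      _ = _ := by ring
  have h4 : ∑ z ∈ F, ind z ≤
      256 * (r : ℝ) ^ 2 * ∑ s ∈ Icc r (2 * r), dir c (F.filter (fun w => ℓ w = s)) v := by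
    have h41 : ∑ z ∈ F, ind z = ∑ s ∈ Icc r (2 * r), ∑ z ∈ F.filter (fun w => ℓ w = s), v z ^ 2 := by
      rw [hind]
      rw [← sum_filter]
      rw [← sum_fiberwise_of_maps_to (s := F.filter (fun z => r ≤ ℓ z ∧ ℓ z ≤ 2 * r))
        (t := Icc r (2 * r)) (g := ℓ)]
      · refine sum_congr rfl fun s hs => ?_
        rw [mem_Icc] at hs
        refine sum_congr ?_ fun _ _ => rfl
        ext z
        simp only [mem_filter]
        constructor
        · rintro ⟨⟨a, b⟩, d⟩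
          exact ⟨a, d⟩
        · rintro ⟨a, d⟩
          exact ⟨⟨a, by omega⟩, d⟩
      · intro z hz
        rw [mem_filter] at hz
        rw [mem_Icc]
        exact hz.2
    rw [h41, mul_sum]
    refine sum_le_sum fun s hs => ?_
    rw [mem_Icc] at hs
    set O := dir c (F.filter (fun w => ℓ w = s)) v with hO
    have hO0 : 0 ≤ O := dir_nonneg c H.nonneg _ _
    have b1 : ∑ z ∈ F.filter (fun w => ℓ w = s), v z ^ 2 ≤
        ∑ z ∈ F.filter (fun w => ℓ w = s), 8 * (s : ℝ) * O := by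
      refine sum_le_sum fun z hz => ?_
      rw [mem_filter] at hz
      exact H.ring s (by omega) (by omega) z hz.1 hz.2
    rw [sum_const, nsmul_eq_mul] at b1
    have b2 : ((F.filter (fun w => ℓ w = s)).card : ℝ) ≤ 8 * s := by
      exact_mod_cast H.card s (by omega)
    have b3 : (s : ℝ) ≤ 2 * r := by exact_mod_cast hs.2
    have b4 : (0 : ℝ) ≤ s := by positivity
    calc _ ≤ _ := b1
      _ ≤ (8 * (s : ℝ)) * (8 * s * O) := mul_le_mul_of_nonneg_right b2 (by positivity)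
      _ = 64 * (s : ℝ) ^ 2 * O := by ring
      _ ≤ 64 * (2 * (r : ℝ)) ^ 2 * O := by
          apply mul_le_mul_of_nonneg_right _ hO0
          apply mul_le_mul_of_nonneg_left _ (by norm_num)
          exact pow_le_pow_left₀ b4 b3 2
      _ = _ := by ring
  calc _ ≤ _ := h2
    _ ≤ _ := h1
    _ ≤ _ := h3
    _ ≤ 4 / (r : ℝ) ^ 2 * (256 * (r : ℝ) ^ 2 *
        ∑ s ∈ Icc r (2 * r), dir c (F.filter (fun w => ℓ w = s)) v) := by
        apply mul_le_mul_of_nonneg_left h4; positivity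
    _ = _ := by field_simp; ring

theorem HF.split (H : HF F c v ℓ ρ) (r : ℕ) :
    dir c (F.filter (fun w => 2 * r + 1 ≤ ℓ w)) v +
      ∑ s ∈ Icc r (2 * r), dir c (F.filter (fun w => ℓ w = s)) v ≤
    dir c (F.filter (fun w => r ≤ ℓ w)) v := by
  have hnn : ∀ z w, 0 ≤ c z w * (v z - v w) ^ 2 := fun z w => mul_nonneg (H.nonneg z w) (sq_nonneg _)
  have hsplit : dir c (F.filter (fun w => r ≤ ℓ w)) v =
      ∑ z ∈ F.filter (fun w => 2 * r + 1 ≤ ℓ w), ∑ w ∈ F.filter (fun w => r ≤ ℓ w),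
        c z w * (v z - v w) ^ 2 +
      ∑ z ∈ F.filter (fun w => r ≤ ℓ w ∧ ℓ w ≤ 2 * r), ∑ w ∈ F.filter (fun w => r ≤ ℓ w),
        c z w * (v z - v w) ^ 2 := by
    unfold dir
    rw [← sum_filter_add_sum_filter_not (F.filter (fun w => r ≤ ℓ w)) (fun w => 2 * r + 1 ≤ ℓ w)]
    congr 1
    · refine sum_congr ?_ fun _ _ => rfl
      ext z; simp only [mem_filter]
      constructor
      · rintro ⟨⟨a, _⟩, b⟩; exact ⟨a, b⟩
      · rintro ⟨a, b⟩; exact ⟨⟨a, by omega⟩, b⟩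
    · refine sum_congr ?_ fun _ _ => rfl
      ext z; simp only [mem_filter]
      constructor
      · rintro ⟨⟨a, b⟩, d⟩; exact ⟨a, b, by omega⟩
      · rintro ⟨a, b, d⟩; exact ⟨⟨a, b⟩, by omega⟩
  rw [hsplit]
  refine add_le_add ?_ ?_
  · unfold dir
    refine sum_le_sum fun z _ => sum_le_sum_of_subset_of_nonneg ?_ (fun w _ _ => hnn z w)
    intro w hw
    rw [mem_filter] at hw ⊢
    exact ⟨hw.1, by omega⟩
  · rw [← sum_fiberwise_of_maps_to (s := F.filter (fun w => r ≤ ℓ w ∧ ℓ w ≤ 2 * r))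
        (t := Icc r (2 * r)) (g := ℓ)]
    · refine sum_le_sum fun s hs => ?_
      rw [mem_Icc] at hs
      unfold dir
      have e : (F.filter (fun w => r ≤ ℓ w ∧ ℓ w ≤ 2 * r)).filter (fun w => ℓ w = s) =
          F.filter (fun w => ℓ w = s) := by
        ext z; simp only [mem_filter]
        constructor
        · rintro ⟨⟨a, _⟩, d⟩; exact ⟨a, d⟩
        · rintro ⟨a, d⟩; exact ⟨⟨a, by omega⟩, d⟩
      rw [e]
      refine sum_le_sum fun z _ => sum_le_sum_of_subset_of_nonneg ?_ (fun w _ _ => hnn z w)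
      intro w hw
      rw [mem_filter] at hw ⊢
      exact ⟨hw.1, by omega⟩
    · intro z hz
      rw [mem_filter] at hz
      rw [mem_Icc]
      exact hz.2

theorem HF.decay (H : HF F c v ℓ ρ) (j : ℕ) (hj : 2 * (2 ^ (j + 1) - 1) ≤ ρ) :
    dir c (F.filter (fun w => 2 ^ (j + 1) - 1 ≤ ℓ w)) v ≤ 8 * (1024 / 1025 : ℝ) ^ j := by
  induction j with
  | zero =>
    simp only [zero_add, pow_one, pow_zero, mul_one]
    refine le_trans ?_ H.total
    unfold dir
    refine (sum_le_sum fun z _ => sum_le_sum_of_subset_of_nonneg (filter_subset _ _)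
      (fun w _ _ => mul_nonneg (H.nonneg z w) (sq_nonneg _))).trans ?_
    exact sum_le_sum_of_subset_of_nonneg (filter_subset _ _)
            (fun z _ _ => sum_nonneg fun w _ => mul_nonneg (H.nonneg z w) (sq_nonneg _))
  | succ j ih =>
    have hp : 1 ≤ 2 ^ (j + 1) := Nat.one_le_two_pow
    have hp2 : 2 ^ (j + 1 + 1) = 2 * 2 ^ (j + 1) := by rw [pow_succ]; ring
    set r := 2 ^ (j + 1) - 1 with hr
    have hr1 : 1 ≤ r := by
      have : 2 ≤ 2 ^ (j + 1) := by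
        calc 2 = 2 ^ 1 := by norm_num
          _ ≤ 2 ^ (j + 1) := Nat.pow_le_pow_right (by norm_num) (by omega)
      omega
    have hr2 : 2 ^ (j + 1 + 1) - 1 = 2 * r + 1 := by omega
    rw [hr2] at hj ⊢
    have ih' := ih (by omega)
    have s1 := H.step r hr1 (by omega)
    have s2 := H.split r
    rw [pow_succ]
    have : dir c (F.filter (fun w => 2 * r + 1 ≤ ℓ w)) v ≤
        (1024 / 1025 : ℝ) * dir c (F.filter (fun w => r ≤ ℓ w)) v := by
      linarith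
    calc _ ≤ _ := this
      _ ≤ (1024 / 1025 : ℝ) * (8 * (1024 / 1025 : ℝ) ^ j) :=
        mul_le_mul_of_nonneg_left ih' (by norm_num)
      _ = _ := by ring

/-- the conclusion: some ring in the window carries small values -/
theorem HF.small_ring (H : HF F c v ℓ ρ) (j : ℕ) (hj : 2 * (2 ^ (j + 1) - 1) ≤ ρ) :
    ∃ s, 1 ≤ s ∧ s ≤ 2 * (2 ^ (j + 1) - 1) ∧
      ∀ z ∈ F, ℓ z = s → v z ^ 2 ≤ 128 * (1024 / 1025 : ℝ) ^ j := by
  have hp : 2 ≤ 2 ^ (j + 1) := by
    calc 2 = 2 ^ 1 := by norm_num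
      _ ≤ 2 ^ (j + 1) := Nat.pow_le_pow_right (by norm_num) (by omega)
  have hdec := H.decay j hj
  set r := 2 ^ (j + 1) - 1 with hr
  have hr1 : 1 ≤ r := by omega
  have s2 := H.split r
  have hr0 : (0 : ℝ) < r := by exact_mod_cast hr1
  have hd0 : 0 ≤ dir c (F.filter (fun w => 2 * r + 1 ≤ ℓ w)) v := dir_nonneg c H.nonneg _ _
  have hex : ∃ s ∈ Icc r (2 * r), dir c (F.filter (fun w => ℓ w = s)) v ≤
      (8 * (1024 / 1025 : ℝ) ^ j) / (r + 1) := by
    by_contra hcon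
    push Not at hcon
    have hlt : ∑ s ∈ Icc r (2 * r), (8 * (1024 / 1025 : ℝ) ^ j) / ((r : ℝ) + 1) <
        ∑ s ∈ Icc r (2 * r), dir c (F.filter (fun w => ℓ w = s)) v :=
      sum_lt_sum_of_nonempty ⟨r, by rw [mem_Icc]; omega⟩ hcon
    rw [sum_const, Nat.card_Icc, nsmul_eq_mul] at hlt
    have e : ((2 * r + 1 - r : ℕ) : ℝ) = (r : ℝ) + 1 := by
      have : 2 * r + 1 - r = r + 1 := by omega
      rw [this]; push_cast; ring
    rw [e, mul_div_cancel₀ _ (by positivity : (r : ℝ) + 1 ≠ 0)] at hlt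
    linarith
  obtain ⟨s, hs, hsm⟩ := hex
  rw [mem_Icc] at hs
  refine ⟨s, by omega, hs.2, fun z hz hzs => ?_⟩
  have h1 := H.ring s (by omega) (by omega) z hz hzs
  have b3 : (s : ℝ) ≤ 2 * r := by exact_mod_cast hs.2
  have hq : (0 : ℝ) < (1024 / 1025 : ℝ) ^ j := by positivity
  have hO0 : 0 ≤ dir c (F.filter (fun w => ℓ w = s)) v := dir_nonneg c H.nonneg _ _
  calc v z ^ 2 ≤ _ := h1
    _ ≤ 8 * (2 * (r : ℝ)) * ((8 * (1024 / 1025 : ℝ) ^ j) / (r + 1)) := by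
        apply mul_le_mul _ hsm hO0 (by positivity)
        linarith
    _ = 128 * (1024 / 1025 : ℝ) ^ j * (r / (r + 1)) := by ring
    _ ≤ 128 * (1024 / 1025 : ℝ) ^ j * 1 := by
        apply mul_le_mul_of_nonneg_left _ (by positivity)
        rw [div_le_one (by positivity)]
        linarith
    _ = _ := by ring

end Pool.Agent.H27R3.DLA
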