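import Mathlib
import Pool.Agent.H27R3.DLA.Defs
import Pool.Agent.H27R3.DLA.Hole

set_option autoImplicit false
open scoped Classical
open Finset

namespace Pool.Agent.H27R3.DLA

section Walk

variable {V : Type*}

theorem walk_le (G : SimpleGraph V) (v : V → ℝ) {p q : V} (w : G.Walk p q) :
    |v p - v q| ≤ (w.darts.map (fun d => |v d.fst - v d.snd|)).sum := by
  induction w with
  | nil => simp
  | @cons a b c h w ih =>
    rw [SimpleGraph.Walk.darts_cons, List.map_cons, List.sum_cons]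
    calc |v a - v c| = |(v a - v b) + (v b - v c)| := by ring_nf
      _ ≤ |v a - v b| + |v b - v c| := abs_add_le _ _
      _ ≤ _ := by
        simp only
        linarith

theorem support_mem (G : SimpleGraph V) (S : Finset V)
    (hS : ∀ a b, G.Adj a b → a ∈ S ∧ b ∈ S) {p q : V} (w : G.Walk p q) (hp : p ∈ S) :
    ∀ x ∈ w.support, x ∈ S := by
  induction w with
  | nil => intro x hx; simp at hx; subst hx; exact hp
  | @cons a b c h w ih =>
    intro x hx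
    rw [SimpleGraph.Walk.support_cons, List.mem_cons] at hx
    rcases hx with rfl | hx
    · exact hp
    · exact ih (hS _ _ h).2 x hx

theorem path_poincare (G : SimpleGraph V) (S : Finset V) (c : V → V → ℝ) (v : V → ℝ)
    (hc : ∀ z w, 0 ≤ c z w)
    (hS : ∀ a b, G.Adj a b → a ∈ S ∧ b ∈ S ∧ c a b = 1) {p q : V} (hp : p ∈ S)
    (hr : G.Reachable p q) :
    (v p - v q) ^ 2 ≤ (S.card : ℝ) * dir c S v := by
  obtain ⟨w, hw⟩ := hr.exists_isPath
  have hnd : w.darts.Nodup := SimpleGraph.Walk.darts_nodup_of_support_nodup hw.support_nodup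
  have h1 := walk_le G v w
  rw [← List.sum_toFinset _ hnd] at h1
  have h2 : (v p - v q) ^ 2 ≤ (∑ d ∈ w.darts.toFinset, |v d.fst - v d.snd|) ^ 2 := by
    rw [← sq_abs]
    exact pow_le_pow_left₀ (abs_nonneg _) h1 2
  have h3 := sq_sum_le_card_mul_sum_sq (s := w.darts.toFinset)
    (f := fun d => |v d.fst - v d.snd|)
  have h4 : (w.darts.toFinset.card : ℝ) ≤ S.card := by
    have e1 : w.darts.toFinset.card = w.length := by
      rw [List.toFinset_card_of_nodup hnd, SimpleGraph.Walk.length_darts]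
    have e2 : w.support.toFinset.card = w.length + 1 := by
      rw [List.toFinset_card_of_nodup hw.support_nodup, SimpleGraph.Walk.length_support]
    have e3 : w.support.toFinset ⊆ S := by
      intro x hx
      rw [List.mem_toFinset] at hx
      exact support_mem G S (fun a b h => ⟨(hS a b h).1, (hS a b h).2.1⟩) w hp x hx
    have e4 := card_le_card e3
    exact_mod_cast (by omega : w.darts.toFinset.card ≤ S.card)
  have h5 : ∑ d ∈ w.darts.toFinset, |v d.fst - v d.snd| ^ 2 ≤ dir c S v := by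
    have hinj : Set.InjOn (fun d : G.Dart => (d.fst, d.snd)) (w.darts.toFinset : Set G.Dart) := by
      intro a _ b _ hab
      simp only [Prod.mk.injEq] at hab
      exact SimpleGraph.Dart.ext _ _ (Prod.ext hab.1 hab.2)
    have e5 : ∑ d ∈ w.darts.toFinset, |v d.fst - v d.snd| ^ 2 =
        ∑ x ∈ w.darts.toFinset.image (fun d : G.Dart => (d.fst, d.snd)),
          c x.1 x.2 * (v x.1 - v x.2) ^ 2 := by
      rw [sum_image hinj]
      refine sum_congr rfl fun d _ => ?_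
      rw [sq_abs, (hS _ _ d.adj).2.2, one_mul]
    rw [e5]
    unfold dir
    rw [← sum_product']
    refine sum_le_sum_of_subset_of_nonneg ?_ (fun x _ _ => mul_nonneg (hc _ _) (sq_nonneg _))
    intro x hx
    rw [mem_image] at hx
    obtain ⟨d, _, rfl⟩ := hx
    rw [mem_product]
    exact ⟨(hS _ _ d.adj).1, (hS _ _ d.adj).2.1⟩
  calc _ ≤ _ := h2
    _ ≤ _ := h3
    _ ≤ _ := mul_le_mul h4 h5 (sum_nonneg fun _ _ => sq_nonneg _) (by positivity)

end Walk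

section Geometry

theorem mem_nb4 (z w : ℤ × ℤ) : w ∈ nb4 z ↔
    (w.1 = z.1 + 1 ∧ w.2 = z.2) ∨ (w.1 = z.1 - 1 ∧ w.2 = z.2) ∨
    (w.1 = z.1 ∧ w.2 = z.2 + 1) ∨ (w.1 = z.1 ∧ w.2 = z.2 - 1) := by
  unfold nb4
  simp only [mem_insert, mem_singleton, Prod.ext_iff]

theorem nb4_symm (z w : ℤ × ℤ) : w ∈ nb4 z ↔ z ∈ nb4 w := by
  rw [mem_nb4, mem_nb4]
  constructor <;> intro h <;> omega

theorem nb4_card (z : ℤ × ℤ) : (nb4 z).card ≤ 4 := by
  unfold nb4
  exact card_le_four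

/-- graph on the points satisfying `P` -/
def Gr (P : ℤ × ℤ → Prop) : SimpleGraph (ℤ × ℤ) where
  Adj z w := P z ∧ P w ∧ w ∈ nb4 z
  symm := ⟨fun z w h => ⟨h.2.1, h.1, (nb4_symm z w).mp h.2.2⟩⟩
  loopless := ⟨fun z h => by
    have := h.2.2
    rw [mem_nb4] at this
    omega⟩

theorem seg_h (P : ℤ × ℤ → Prop) (x y : ℤ) (n : ℕ) (h : ∀ i : ℕ, i ≤ n → P (x + i, y)) :
    (Gr P).Reachable (x, y) (x + n, y) := by
  induction n with
  | zero => simp
  | succ n ih =>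
    refine (ih fun i hi => h i (by omega)).trans (SimpleGraph.Adj.reachable ?_)
    refine ⟨h n (by omega), h (n + 1) le_rfl, ?_⟩
    rw [mem_nb4]
    left
    push_cast
    constructor
    · ring
    · rfl

theorem seg_v (P : ℤ × ℤ → Prop) (x y : ℤ) (n : ℕ) (h : ∀ i : ℕ, i ≤ n → P (x, y + i)) :
    (Gr P).Reachable (x, y) (x, y + n) := by
  induction n with
  | zero => simp
  | succ n ih =>
    refine (ih fun i hi => h i (by omega)).trans (SimpleGraph.Adj.reachable ?_)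
    refine ⟨h n (by omega), h (n + 1) le_rfl, ?_⟩
    rw [mem_nb4]
    right; right; left
    push_cast
    constructor
    · rfl
    · ring

/-- horizontal segment between two points of the same height -/
theorem reach_h (P : ℤ × ℤ → Prop) (x x' y : ℤ) (hx : x ≤ x')
    (h : ∀ u, x ≤ u → u ≤ x' → P (u, y)) : (Gr P).Reachable (x, y) (x', y) := by
  obtain ⟨n, hn⟩ := Int.eq_ofNat_of_zero_le (sub_nonneg.mpr hx)
  have : x' = x + n := by omega
  subst this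
  exact seg_h P x y n fun i hi => h _ (by omega) (by omega)

theorem reach_v (P : ℤ × ℤ → Prop) (x y y' : ℤ) (hy : y ≤ y')
    (h : ∀ u, y ≤ u → u ≤ y' → P (x, u)) : (Gr P).Reachable (x, y) (x, y') := by
  obtain ⟨n, hn⟩ := Int.eq_ofNat_of_zero_le (sub_nonneg.mpr hy)
  have : y' = y + n := by omega
  subst this
  exact seg_v P x y n fun i hi => h _ (by omega) (by omega)

/-- sup-norm distance to `y` -/
def lev (y z : ℤ × ℤ) : ℕ := max (z.1 - y.1).natAbs (z.2 - y.2).natAbs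

theorem lev_lip (y z w : ℤ × ℤ) (h : w ∈ nb4 z) : lev y z ≤ lev y w + 1 := by
  rw [mem_nb4] at h
  unfold lev
  omega

theorem lev_eq_zero (y z : ℤ × ℤ) : lev y z = 0 ↔ z = y := by
  unfold lev
  rw [Prod.ext_iff]
  omega

/-- slope form of the wedge -/
def WS (t₁ t₂ : ℝ) : Set (ℤ × ℤ) :=
  {z | 0 ≤ z.1 ∧ t₁ * (z.1 : ℝ) ≤ (z.2 : ℝ) ∧ (z.2 : ℝ) ≤ t₂ * (z.1 : ℝ)}

theorem ring_conn_BR (t₁ t₂ : ℝ) (ht₂ : 0 ≤ t₂) (y : ℤ × ℤ) (s : ℕ)
    (hLI : ∀ z : ℤ × ℤ, lev y z ≤ s → 0 ≤ z.1 ∧ t₁ * (z.1 : ℝ) ≤ (z.2 : ℝ))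
    (p : ℤ × ℤ) (hp : p ∈ WS t₁ t₂) (hps : lev y p = s) :
    (Gr (fun z => z ∈ WS t₁ t₂ ∧ lev y z = s)).Reachable p (y.1 + s, y.2 - s) := by
  have key : ∀ z w : ℤ × ℤ, z ∈ WS t₁ t₂ → z.1 ≤ w.1 → w.2 ≤ z.2 → lev y w ≤ s → w ∈ WS t₁ t₂ := by
    intro z w hz h1 h2 h3
    refine ⟨(hLI w h3).1, (hLI w h3).2, ?_⟩
    have a1 : (w.2 : ℝ) ≤ z.2 := by exact_mod_cast h2
    have a2 : (z.1 : ℝ) ≤ w.1 := by exact_mod_cast h1
    exact a1.trans (hz.2.2.trans (mul_le_mul_of_nonneg_left a2 ht₂))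
  obtain ⟨px, py⟩ := p
  have hl : (px - y.1).natAbs ≤ s ∧ (py - y.2).natAbs ≤ s ∧
      ((px - y.1).natAbs = s ∨ (py - y.2).natAbs = s) := by
    unfold lev at hps
    simp only at hps
    omega
  obtain ⟨h1, h2, h3⟩ := hl
  -- from the right column down to the corner
  have right : ∀ u : ℤ, y.2 - s ≤ u → u ≤ y.2 + s → (y.1 + s, u) ∈ WS t₁ t₂ →
      (Gr (fun z => z ∈ WS t₁ t₂ ∧ lev y z = s)).Reachable (y.1 + s, u) (y.1 + s, y.2 - s) := by
    intro u hu1 hu2 hu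
    refine (reach_v _ _ _ _ hu1 fun w hw1 hw2 => ?_).symm
    have hl : lev y (y.1 + s, w) = s := by unfold lev; simp only; omega
    exact ⟨key _ _ hu le_rfl hw2 hl.le, hl⟩
  have bottom : ∀ u : ℤ, y.1 - s ≤ u → u ≤ y.1 + s → (u, y.2 - s) ∈ WS t₁ t₂ →
      (Gr (fun z => z ∈ WS t₁ t₂ ∧ lev y z = s)).Reachable (u, y.2 - s) (y.1 + s, y.2 - s) := by
    intro u hu1 hu2 hu
    refine reach_h _ _ _ _ hu2 fun w hw1 hw2 => ?_
    have hl : lev y (w, y.2 - s) = s := by unfold lev; simp only; omega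
    exact ⟨key _ _ hu hw1 le_rfl hl.le, hl⟩
  by_cases c1 : px = y.1 + s
  · subst c1
    exact right py (by omega) (by omega) hp
  by_cases c2 : py = y.2 - s
  · subst c2
    exact bottom px (by omega) (by omega) hp
  by_cases c3 : py = y.2 + s
  · subst c3
    have hTR : (y.1 + (s : ℤ), y.2 + (s : ℤ)) ∈ WS t₁ t₂ :=
      key _ _ hp (by omega) le_rfl (by unfold lev; simp only; omega)
    refine SimpleGraph.Reachable.trans (reach_h _ _ _ _ (by omega : px ≤ y.1 + s)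
      fun w hw1 hw2 => ?_) (right _ (by omega) le_rfl hTR)
    have hl : lev y (w, y.2 + s) = s := by unfold lev; simp only; omega
    exact ⟨key _ _ hp hw1 le_rfl hl.le, hl⟩
  · have c4 : px = y.1 - s := by omega
    subst c4
    have hBL : (y.1 - (s : ℤ), y.2 - (s : ℤ)) ∈ WS t₁ t₂ :=
      key _ _ hp le_rfl (by simp only; omega) (by unfold lev; simp only; omega)
    refine SimpleGraph.Reachable.trans (reach_v _ _ _ _ (by omega : y.2 - s ≤ py)
      fun w hw1 hw2 => ?_).symm (bottom _ le_rfl (by omega) hBL)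
    have hl : lev y (y.1 - s, w) = s := by unfold lev; simp only; omega
    exact ⟨key _ _ hp le_rfl hw2 hl.le, hl⟩

theorem ring_conn_TR (t₁ t₂ : ℝ) (ht₁ : t₁ ≤ 0) (y : ℤ × ℤ) (s : ℕ)
    (hUI : ∀ z : ℤ × ℤ, lev y z ≤ s → 0 ≤ z.1 ∧ (z.2 : ℝ) ≤ t₂ * (z.1 : ℝ))
    (p : ℤ × ℤ) (hp : p ∈ WS t₁ t₂) (hps : lev y p = s) :
    (Gr (fun z => z ∈ WS t₁ t₂ ∧ lev y z = s)).Reachable p (y.1 + s, y.2 + s) := by
  have key : ∀ z w : ℤ × ℤ, z ∈ WS t₁ t₂ → z.1 ≤ w.1 → z.2 ≤ w.2 → lev y w ≤ s → w ∈ WS t₁ t₂ := by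
    intro z w hz h1 h2 h3
    refine ⟨(hUI w h3).1, ?_, (hUI w h3).2⟩
    have a1 : (z.2 : ℝ) ≤ w.2 := by exact_mod_cast h2
    have a2 : (z.1 : ℝ) ≤ w.1 := by exact_mod_cast h1
    exact ((mul_le_mul_of_nonpos_left a2 ht₁).trans hz.2.1).trans a1
  obtain ⟨px, py⟩ := p
  have hl : (px - y.1).natAbs ≤ s ∧ (py - y.2).natAbs ≤ s ∧
      ((px - y.1).natAbs = s ∨ (py - y.2).natAbs = s) := by
    unfold lev at hps
    simp only at hps
    omega
  obtain ⟨h1, h2, h3⟩ := hl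
  have right : ∀ u : ℤ, y.2 - s ≤ u → u ≤ y.2 + s → (y.1 + s, u) ∈ WS t₁ t₂ →
      (Gr (fun z => z ∈ WS t₁ t₂ ∧ lev y z = s)).Reachable (y.1 + s, u) (y.1 + s, y.2 + s) := by
    intro u hu1 hu2 hu
    refine reach_v _ _ _ _ hu2 fun w hw1 hw2 => ?_
    have hl : lev y (y.1 + s, w) = s := by unfold lev; simp only; omega
    exact ⟨key _ _ hu le_rfl hw1 hl.le, hl⟩
  have top : ∀ u : ℤ, y.1 - s ≤ u → u ≤ y.1 + s → (u, y.2 + s) ∈ WS t₁ t₂ →
      (Gr (fun z => z ∈ WS t₁ t₂ ∧ lev y z = s)).Reachable (u, y.2 + s) (y.1 + s, y.2 + s) := by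
    intro u hu1 hu2 hu
    refine reach_h _ _ _ _ hu2 fun w hw1 hw2 => ?_
    have hl : lev y (w, y.2 + s) = s := by unfold lev; simp only; omega
    exact ⟨key _ _ hu hw1 le_rfl hl.le, hl⟩
  by_cases c1 : px = y.1 + s
  · subst c1
    exact right py (by omega) (by omega) hp
  by_cases c2 : py = y.2 + s
  · subst c2
    exact top px (by omega) (by omega) hp
  by_cases c3 : py = y.2 - s
  · subst c3
    have hBR : (y.1 + (s : ℤ), y.2 - (s : ℤ)) ∈ WS t₁ t₂ :=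
      key _ _ hp (by omega) le_rfl (by unfold lev; simp only; omega)
    refine SimpleGraph.Reachable.trans (reach_h _ _ _ _ (by omega : px ≤ y.1 + s)
      fun w hw1 hw2 => ?_) (right _ le_rfl (by omega) hBR)
    have hl : lev y (w, y.2 - s) = s := by unfold lev; simp only; omega
    exact ⟨key _ _ hp hw1 le_rfl hl.le, hl⟩
  · have c4 : px = y.1 - s := by omega
    subst c4
    have hTL : (y.1 - (s : ℤ), y.2 + (s : ℤ)) ∈ WS t₁ t₂ :=
      key _ _ hp le_rfl (by simp only; omega) (by unfold lev; simp only; omega)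
    refine SimpleGraph.Reachable.trans (reach_v _ _ _ _ (by omega : py ≤ y.2 + s)
      fun w hw1 hw2 => ?_) (top _ le_rfl (by omega) hTL)
    have hl : lev y (y.1 - s, w) = s := by unfold lev; simp only; omega
    exact ⟨key _ _ hp le_rfl hw1 hl.le, hl⟩

/-- the ring of radius `s` around `y` inside the wedge is connected -/
theorem ring_conn (t₁ t₂ : ℝ) (ht₁ : t₁ ≤ 0) (ht₂ : 0 ≤ t₂) (y : ℤ × ℤ)
    (s : ℕ) (hs : (s : ℝ) * (2 + (t₂ - t₁)) ≤ (t₂ - t₁) * (y.1 : ℝ)) (hs1 : (s : ℤ) ≤ y.1)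
    (p q : ℤ × ℤ) (hp : p ∈ WS t₁ t₂) (hps : lev y p = s) (hq : q ∈ WS t₁ t₂)
    (hqs : lev y q = s) :
    (Gr (fun z => z ∈ WS t₁ t₂ ∧ lev y z = s)).Reachable p q := by
  have hbd : ∀ z : ℤ × ℤ, lev y z ≤ s → (y.1 : ℝ) - s ≤ z.1 ∧ (y.2 : ℝ) - s ≤ z.2 ∧
      (z.2 : ℝ) ≤ y.2 + s ∧ 0 ≤ z.1 := by
    intro z hz
    unfold lev at hz
    refine ⟨?_, ?_, ?_, by omega⟩
    · exact_mod_cast (by omega : y.1 - s ≤ z.1)
    · exact_mod_cast (by omega : y.2 - s ≤ z.2)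
    · exact_mod_cast (by omega : z.2 ≤ y.2 + s)
  by_cases hc : t₁ * ((y.1 : ℝ) - s) ≤ (y.2 : ℝ) - s
  · have hLI : ∀ z : ℤ × ℤ, lev y z ≤ s → 0 ≤ z.1 ∧ t₁ * (z.1 : ℝ) ≤ (z.2 : ℝ) := by
      intro z hz
      obtain ⟨a, b, _, d⟩ := hbd z hz
      exact ⟨d, (mul_le_mul_of_nonpos_left a ht₁).trans (hc.trans b)⟩
    exact (ring_conn_BR t₁ t₂ ht₂ y s hLI p hp hps).trans
      (ring_conn_BR t₁ t₂ ht₂ y s hLI q hq hqs).symm
  · have hc2 : (y.2 : ℝ) + s ≤ t₂ * ((y.1 : ℝ) - s) := by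
      push Not at hc
      nlinarith
    have hUI : ∀ z : ℤ × ℤ, lev y z ≤ s → 0 ≤ z.1 ∧ (z.2 : ℝ) ≤ t₂ * (z.1 : ℝ) := by
      intro z hz
      obtain ⟨a, _, b, d⟩ := hbd z hz
      exact ⟨d, b.trans (hc2.trans (mul_le_mul_of_nonneg_left a ht₂))⟩
    exact (ring_conn_TR t₁ t₂ ht₁ y s hUI p hp hps).trans
      (ring_conn_TR t₁ t₂ ht₁ y s hUI q hq hqs).symm

theorem ring_card (y : ℤ × ℤ) (s : ℕ) (hs : 1 ≤ s) (F : Finset (ℤ × ℤ)) :
    (F.filter (fun w => lev y w = s)).card ≤ 8 * s := by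
  have hsub : F.filter (fun w => lev y w = s) ⊆
      (Icc (y.1 - s) (y.1 + s) ×ˢ Icc (y.2 - s) (y.2 + s)) \
        (Icc (y.1 - s + 1) (y.1 + s - 1) ×ˢ Icc (y.2 - s + 1) (y.2 + s - 1)) := by
    intro z hz
    rw [mem_filter] at hz
    have hz2 := hz.2
    unfold lev at hz2
    rw [mem_sdiff, mem_product, mem_product, mem_Icc, mem_Icc, mem_Icc, mem_Icc]
    constructor
    · omega
    · omega
  refine (card_le_card hsub).trans ?_
  rw [card_sdiff_of_subset]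
  · rw [card_product, card_product, Int.card_Icc, Int.card_Icc, Int.card_Icc, Int.card_Icc]
    have e1 : (y.1 + s + 1 - (y.1 - s)).toNat = 2 * s + 1 := by omega
    have e2 : (y.2 + s + 1 - (y.2 - s)).toNat = 2 * s + 1 := by omega
    have e3 : (y.1 + s - 1 + 1 - (y.1 - s + 1)).toNat = 2 * s - 1 := by omega
    have e4 : (y.2 + s - 1 + 1 - (y.2 - s + 1)).toNat = 2 * s - 1 := by omega
    rw [e1, e2, e3, e4]
    obtain ⟨k, rfl⟩ : ∃ k, s = k + 1 := ⟨s - 1, by omega⟩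
    have e5 : 2 * (k + 1) - 1 = 2 * k + 1 := by omega
    rw [e5]
    have : (2 * (k + 1) + 1) * (2 * (k + 1) + 1) = (2 * k + 1) * (2 * k + 1) + 8 * (k + 1) := by
      ring
    omega
  · intro z hz
    rw [mem_product, mem_Icc, mem_Icc] at hz ⊢
    omega

end Geometry

end Pool.Agent.H27R3.DLA
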