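import Mathlib
import Pool.Agent.H27R3.DLA.Ring

set_option autoImplicit false
open scoped Classical
open Finset

namespace Pool.Agent.H27R3.DLA

section Hit

variable (W : Set (ℤ × ℤ)) (B : Finset (ℤ × ℤ)) (y : ℤ × ℤ)

theorem hit_nonneg (k : ℕ) (z : ℤ × ℤ) : 0 ≤ hit W B y k z := by
  induction k generalizing z with
  | zero => unfold hit; split_ifs <;> norm_num
  | succ k ih =>
    unfold hit
    split_ifs
    · norm_num
    · norm_num
    · exact div_nonneg (sum_nonneg fun w _ => ih w) (by positivity)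

theorem hit_le_one (k : ℕ) (z : ℤ × ℤ) : hit W B y k z ≤ 1 := by
  induction k generalizing z with
  | zero => unfold hit; split_ifs <;> norm_num
  | succ k ih =>
    unfold hit
    split_ifs
    · norm_num
    · norm_num
    · apply div_le_one_of_le₀ _ (by positivity)
      refine (sum_le_sum fun w _ => ih w).trans ?_
      simp

theorem hit_mono_succ (k : ℕ) (z : ℤ × ℤ) : hit W B y k z ≤ hit W B y (k + 1) z := by
  induction k generalizing z with
  | zero =>
    by_cases hz : z ∈ B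
    · simp [hit, hz]
    · have h1 : hit W B y 0 z = 0 := by simp [hit, hz]
      rw [h1]
      exact hit_nonneg W B y _ z
  | succ k ih =>
    by_cases hz : z ∈ B
    · simp [hit, hz]
    · have e1 : hit W B y (k + 1) z = (∑ w ∈ nb W z, hit W B y k w) / ((nb W z).card : ℝ) := by
        rw [hit, if_neg hz]
      have e2 : hit W B y (k + 1 + 1) z =
          (∑ w ∈ nb W z, hit W B y (k + 1) w) / ((nb W z).card : ℝ) := by
        rw [hit, if_neg hz]
      rw [e1, e2]
      exact div_le_div_of_nonneg_right (sum_le_sum fun w _ => ih w) (by positivity)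

theorem hit_mono {k m : ℕ} (h : k ≤ m) (z : ℤ × ℤ) : hit W B y k z ≤ hit W B y m z :=
  monotone_nat_of_le_succ (fun k => hit_mono_succ W B y k z) h

theorem mem_nb (z w : ℤ × ℤ) : w ∈ nb W z ↔ w ∈ nb4 z ∧ w ∈ W := by
  unfold nb
  rw [mem_filter]

theorem hit_supp (k : ℕ) (z : ℤ × ℤ) (h : hit W B y k z ≠ 0) : lev y z ≤ k := by
  induction k generalizing z with
  | zero =>
    unfold hit at h
    split_ifs at h with h1
    · rw [h1.2]
      exact ((lev_eq_zero y y).mpr rfl).le
    · exact absurd rfl h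
  | succ k ih =>
    unfold hit at h
    split_ifs at h with h1 h2
    · rw [h2, (lev_eq_zero y y).mpr rfl]
      omega
    · exact absurd rfl h
    · have h3 : ∑ w ∈ nb W z, hit W B y k w ≠ 0 := by
        intro h0
        rw [h0] at h
        simp at h
      obtain ⟨w, hw, hw2⟩ := exists_ne_zero_of_sum_ne_zero h3
      have h4 := ih w hw2
      have h5 := lev_lip y z w ((mem_nb W z w).mp hw).1
      omega

theorem hit_zero_of_mem {k : ℕ} {z : ℤ × ℤ} (hz : z ∈ B) (hy : z ≠ y) : hit W B y k z = 0 := by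
  cases k with
  | zero => simp [hit, hy]
  | succ k => simp [hit, hz, hy]

end Hit

section Main

variable (W : Set (ℤ × ℤ)) (A : Finset (ℤ × ℤ)) (y : ℤ × ℤ)

/-- adjacency indicator -/
noncomputable def adj (z w : ℤ × ℤ) : ℝ := if z ∈ W ∧ w ∈ W ∧ w ∈ nb4 z then 1 else 0

theorem adj_symm (z w : ℤ × ℤ) : adj W z w = adj W w z := by
  unfold adj
  congr 1
  rw [nb4_symm z w]
  apply propext
  tauto

theorem adj_nonneg (z w : ℤ × ℤ) : 0 ≤ adj W z w := by
  unfold adj; split_ifs <;> norm_num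

/-- the extended hitting function -/
noncomputable def vk (k : ℕ) (z : ℤ × ℤ) : ℝ :=
  if z ∈ A ∨ z ∉ W then 0 else hit W (bdry W A) y k z

theorem vk_nonneg (k : ℕ) (z : ℤ × ℤ) : 0 ≤ vk W A y k z := by
  unfold vk; split_ifs
  · exact le_rfl
  · exact hit_nonneg _ _ _ _ _

theorem vk_le_one (k : ℕ) (z : ℤ × ℤ) : vk W A y k z ≤ 1 := by
  unfold vk; split_ifs
  · norm_num
  · exact hit_le_one _ _ _ _ _

theorem sum_adj (F : Finset (ℤ × ℤ)) (z : ℤ × ℤ) (hz : z ∈ W) (hF : ∀ w ∈ nb W z, w ∈ F)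
    (g : ℤ × ℤ → ℝ) : ∑ w ∈ F, adj W z w * g w = ∑ w ∈ nb W z, g w := by
  have h1 : ∑ w ∈ F, adj W z w * g w = ∑ w ∈ F.filter (fun w => w ∈ nb W z), g w := by
    rw [sum_filter]
    refine sum_congr rfl fun w _ => ?_
    unfold adj
    by_cases h : w ∈ nb W z
    · have h2 := (mem_nb W z w).mp h
      rw [if_pos ⟨hz, h2.2, h2.1⟩, if_pos h, one_mul]
    · rw [if_neg (fun h' => h ((mem_nb W z w).mpr ⟨h'.2.2, h'.2.1⟩)), if_neg h, zero_mul]
  rw [h1]
  refine sum_congr ?_ fun _ _ => rfl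
  ext w
  rw [mem_filter]
  exact ⟨fun h => h.2, fun h => ⟨hF w h, h⟩⟩

theorem sum_adj_le (F : Finset (ℤ × ℤ)) (z : ℤ × ℤ) : ∑ w ∈ F, adj W z w ≤ 4 := by
  have h1 : ∑ w ∈ F, adj W z w ≤ ∑ w ∈ F, (if w ∈ nb4 z then (1 : ℝ) else 0) := by
    refine sum_le_sum fun w _ => ?_
    unfold adj
    split_ifs with a b b
    · exact le_rfl
    · exact absurd a.2.2 b
    · norm_num
    · exact le_rfl
  refine h1.trans ?_
  rw [← sum_filter, sum_const, nsmul_eq_mul, mul_one]
  have h2 : (F.filter (fun w => w ∈ nb4 z)).card ≤ (nb4 z).card :=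
    card_le_card fun w hw => (mem_filter.mp hw).2
  exact_mod_cast h2.trans (nb4_card z)

theorem vk_sub (k K : ℕ) (hK : k + 1 ≤ K) (F : Finset (ℤ × ℤ))
    (hF : ∀ w, w ∈ F ↔ w ∈ W ∧ lev y w ≤ K) (z : ℤ × ℤ) (hz0 : lev y z ≠ 0) :
    vk W A y k z * ∑ w ∈ F, adj W z w * (vk W A y k z - vk W A y k w) ≤ 0 := by
  by_cases h0 : vk W A y k z = 0
  · rw [h0, zero_mul]
  have hpos : 0 ≤ vk W A y k z := vk_nonneg W A y k z
  refine mul_nonpos_of_nonneg_of_nonpos hpos ?_
  have hzA : z ∉ A ∧ z ∈ W := by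
    by_contra hcon
    apply h0
    unfold vk
    rw [if_pos]
    tauto
  have hv : vk W A y k z = hit W (bdry W A) y k z := by
    unfold vk
    rw [if_neg]
    tauto
  have hzy : z ≠ y := fun h => hz0 ((lev_eq_zero y z).mpr h)
  have hzB : z ∉ bdry W A := by
    intro hB
    apply h0
    rw [hv]
    exact hit_zero_of_mem W _ y hB hzy
  have hlev : lev y z ≤ k := hit_supp W _ y k z (by rwa [← hv])
  have hnbF : ∀ w ∈ nb W z, w ∈ F := by
    intro w hw
    rw [mem_nb] at hw
    rw [hF]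
    refine ⟨hw.2, ?_⟩
    have := lev_lip y w z ((nb4_symm z w).mp hw.1)
    omega
  have hnbv : ∀ w ∈ nb W z, vk W A y k w = hit W (bdry W A) y k w := by
    intro w hw
    rw [mem_nb] at hw
    unfold vk
    rw [if_neg]
    rintro (h | h)
    · apply hzB
      unfold bdry
      rw [mem_sdiff, mem_biUnion]
      exact ⟨⟨w, h, (mem_nb W w z).mpr ⟨(nb4_symm z w).mp hw.1, hzA.2⟩⟩, hzA.1⟩
    · exact h hw.2
  rw [sum_adj W F z hzA.2 hnbF]
  rw [sum_sub_distrib, sum_const, nsmul_eq_mul, sum_congr rfl hnbv, hv]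
  have hm := hit_mono_succ W (bdry W A) y k z
  have e1 : hit W (bdry W A) y (k + 1) z =
      (∑ w ∈ nb W z, hit W (bdry W A) y k w) / ((nb W z).card : ℝ) := by
    rw [hit, if_neg hzB]
  rw [e1] at hm
  rcases Nat.eq_zero_or_pos (nb W z).card with hc | hc
  · rw [hc]
    have : nb W z = ∅ := card_eq_zero.mp hc
    rw [this]
    simp
  · have hc' : (0 : ℝ) < (nb W z).card := by exact_mod_cast hc
    rw [le_div_iff₀ hc'] at hm
    linarith

theorem vk_HF (ρ : ℕ) (k : ℕ)
    (hconn : ∀ s : ℕ, 1 ≤ s → s ≤ ρ → ∀ p q : ℤ × ℤ, p ∈ W → lev y p = s → q ∈ W → lev y q = s →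
      (Gr (fun z => z ∈ W ∧ lev y z = s)).Reachable p q)
    (hA : ∀ s : ℕ, 1 ≤ s → s ≤ ρ → ∃ q ∈ A, q ∈ W ∧ lev y q = s) (F : Finset (ℤ × ℤ))
    (hF : ∀ w, w ∈ F ↔ w ∈ W ∧ lev y w ≤ k + ρ + 1) :
    HF F (adj W) (vk W A y k) (lev y) ρ where
  symm := adj_symm W
  nonneg := adj_nonneg W
  deg := fun z _ => sum_adj_le W F z
  lip := by
    intro z w h
    unfold adj at h
    split_ifs at h with h1
    · exact lev_lip y z w h1.2.2
    · exact absurd rfl h
  vnn := vk_nonneg W A y k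
  sub := fun z _ hz0 => vk_sub W A y k _ (by omega) F hF z hz0
  ring := by
    intro s hs1 hs2 z hz hzs
    obtain ⟨q, hqA, hqW, hqs⟩ := hA s hs1 hs2
    have hzW := ((hF z).mp hz).1
    have hr := hconn s hs1 hs2 z q hzW hzs hqW hqs
    have hvq : vk W A y k q = 0 := by
      unfold vk
      rw [if_pos (Or.inl hqA)]
    have h1 := path_poincare (Gr (fun z => z ∈ W ∧ lev y z = s)) (F.filter (fun w => lev y w = s))
      (adj W) (vk W A y k) (adj_nonneg W) (by
        intro a b hab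
        obtain ⟨h1, h2, h3⟩ := hab
        refine ⟨?_, ?_, ?_⟩
        · rw [mem_filter, hF]
          exact ⟨⟨h1.1, by rw [h1.2]; omega⟩, h1.2⟩
        · rw [mem_filter, hF]
          exact ⟨⟨h2.1, by rw [h2.2]; omega⟩, h2.2⟩
        · unfold adj
          rw [if_pos ⟨h1.1, h2.1, h3⟩]) (mem_filter.mpr ⟨hz, hzs⟩) hr
    rw [hvq, sub_zero] at h1
    refine h1.trans (mul_le_mul_of_nonneg_right ?_ (dir_nonneg _ (adj_nonneg W) _ _))
    exact_mod_cast ring_card y s hs1 F
  card := fun s hs => ring_card y s hs F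
  total := by
    unfold dir
    have h1 := sum_by_parts (adj W) (adj_symm W) F (vk W A y k) (vk W A y k)
    have h2 : ∑ z ∈ F, ∑ w ∈ F, adj W z w * (vk W A y k z - vk W A y k w) ^ 2 =
        ∑ z ∈ F, ∑ w ∈ F, adj W z w * (vk W A y k z - vk W A y k w) *
          (vk W A y k z - vk W A y k w) :=
      sum_congr rfl fun z _ => sum_congr rfl fun w _ => by ring
    rw [h2, ← h1]
    have h3 : ∑ z ∈ F, vk W A y k z * ∑ w ∈ F, adj W z w * (vk W A y k z - vk W A y k w) ≤
        ∑ z ∈ F, (if z = y then (4 : ℝ) else 0) := by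
      refine sum_le_sum fun z hz => ?_
      split_ifs with hzy
      · have a1 : ∑ w ∈ F, adj W z w * (vk W A y k z - vk W A y k w) ≤ 4 := by
          refine le_trans (sum_le_sum fun w _ => ?_) (sum_adj_le W F z)
          calc adj W z w * (vk W A y k z - vk W A y k w) ≤ adj W z w * 1 := by
                apply mul_le_mul_of_nonneg_left _ (adj_nonneg W z w)
                have := vk_le_one W A y k z
                have := vk_nonneg W A y k w
                linarith
            _ = _ := mul_one _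
        have a2 := vk_nonneg W A y k z
        have a3 := vk_le_one W A y k z
        nlinarith
      · exact vk_sub W A y k _ (by omega) F hF z (fun h => hzy ((lev_eq_zero y z).mp h))
    have h4 : ∑ z ∈ F, (if z = y then (4 : ℝ) else 0) ≤ 4 := by
      rw [sum_ite_eq' F y]
      split_ifs <;> norm_num
    linarith

/-- the weak Beurling estimate -/
theorem hit_bound (ρ : ℕ)
    (hconn : ∀ s : ℕ, 1 ≤ s → s ≤ ρ → ∀ p q : ℤ × ℤ, p ∈ W → lev y p = s → q ∈ W → lev y q = s →
      (Gr (fun z => z ∈ W ∧ lev y z = s)).Reachable p q)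
    (hA : ∀ s : ℕ, 1 ≤ s → s ≤ ρ → ∃ q ∈ A, q ∈ W ∧ lev y q = s)
    (j : ℕ) (hj : 2 * (2 ^ (j + 1) - 1) ≤ ρ) (k : ℕ) (z : ℤ × ℤ) (hzW : z ∈ W) (hzA : z ∉ A)
    (hz : 2 * (2 ^ (j + 1) - 1) ≤ lev y z) :
    hit W (bdry W A) y k z ≤ Real.sqrt (128 * (1024 / 1025 : ℝ) ^ j) := by
  set K := k + ρ + 1 with hK
  set F : Finset (ℤ × ℤ) :=
    ((Icc (y.1 - K) (y.1 + K)) ×ˢ (Icc (y.2 - K) (y.2 + K))).filter (fun w => w ∈ W) with hFdef
  have hF : ∀ w, w ∈ F ↔ w ∈ W ∧ lev y w ≤ k + ρ + 1 := by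
    intro w
    rw [hFdef, mem_filter, mem_product, mem_Icc, mem_Icc]
    unfold lev
    constructor
    · rintro ⟨h, h'⟩
      exact ⟨h', by omega⟩
    · rintro ⟨h', h⟩
      exact ⟨by omega, h'⟩
  obtain ⟨s, hs1, hs2, hs3⟩ := (vk_HF W A y ρ k hconn hA F hF).small_ring j hj
  have hring : ∀ k' ≤ k, ∀ z ∈ W, z ∉ A → lev y z = s →
      hit W (bdry W A) y k' z ≤ Real.sqrt (128 * (1024 / 1025 : ℝ) ^ j) := by
    intro k' hk' z hz1 hz2 hz3
    refine (hit_mono W _ y hk' z).trans ?_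
    have h1 := hs3 z ((hF z).mpr ⟨hz1, by omega⟩) hz3
    have h2 : vk W A y k z = hit W (bdry W A) y k z := by
      unfold vk
      rw [if_neg]
      tauto
    rw [h2] at h1
    exact Real.le_sqrt_of_sq_le h1
  have hM0 : 0 ≤ Real.sqrt (128 * (1024 / 1025 : ℝ) ^ j) := Real.sqrt_nonneg _
  have hall : ∀ k' ≤ k, ∀ z ∈ W, z ∉ A → s ≤ lev y z →
      hit W (bdry W A) y k' z ≤ Real.sqrt (128 * (1024 / 1025 : ℝ) ^ j) := by
    intro k'
    induction k' with
    | zero =>
      intro _ z hz1 hz2 hz3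
      have : hit W (bdry W A) y 0 z = 0 := by
        unfold hit
        rw [if_neg]
        rintro ⟨_, rfl⟩
        rw [(lev_eq_zero z z).mpr rfl] at hz3
        omega
      rw [this]
      exact hM0
    | succ k' ih =>
      intro hk' z hz1 hz2 hz3
      rcases Nat.eq_or_lt_of_le hz3 with h | h
      · exact hring _ hk' z hz1 hz2 h.symm
      by_cases hzB : z ∈ bdry W A
      · rw [hit_zero_of_mem W _ y hzB]
        · exact hM0
        · rintro rfl
          rw [(lev_eq_zero z z).mpr rfl] at hz3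
          omega
      · rw [hit, if_neg hzB]
        rcases Nat.eq_zero_or_pos (nb W z).card with hc | hc
        · rw [card_eq_zero.mp hc]
          simpa using hM0
        · rw [div_le_iff₀ (by exact_mod_cast hc)]
          have : ∑ w ∈ nb W z, hit W (bdry W A) y k' w ≤
              ∑ w ∈ nb W z, Real.sqrt (128 * (1024 / 1025 : ℝ) ^ j) := by
            refine sum_le_sum fun w hw => ?_
            rw [mem_nb] at hw
            refine ih (by omega) w hw.2 ?_ ?_
            · intro hwA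
              apply hzB
              unfold bdry
              rw [mem_sdiff, mem_biUnion]
              exact ⟨⟨w, hwA, (mem_nb W w z).mpr ⟨(nb4_symm z w).mp hw.1, hz1⟩⟩, hz2⟩
            · have := lev_lip y z w hw.1
              omega
          rw [sum_const, nsmul_eq_mul] at this
          linarith
  exact hall k le_rfl z hzW hzA (by omega)

end Main

end Pool.Agent.H27R3.DLA
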