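import Mathlib
import Pool.Agent.H27R3.DLA.Ring

set_option autoImplicit false
open scoped Classical ENNReal
open Finset MeasureTheory

namespace Pool.Agent.H27R3.DLA

/-- number of chains of length `i+1` (time-increasing, consecutive points adjacent, all with first
coordinate `> L`) ending at `p` among the first `n` points of the sequence `x` -/
noncomputable def ch (L : ℕ) (x : ℕ → ℤ × ℤ) : ℕ → ℕ → ℤ × ℤ → ℝ≥0∞
  | 0 => fun _ _ => 0
  | n + 1 => fun i p => ch L x n i p +
      if p = x n ∧ (L : ℤ) < (x n).1 then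
        (match i with
          | 0 => 1
          | i' + 1 => ∑ w ∈ nb4 (x n), ch L x n i' w)
      else 0

theorem ch_congr (L : ℕ) (x x' : ℕ → ℤ × ℤ) (n : ℕ) (h : ∀ i < n, x i = x' i) :
    ch L x n = ch L x' n := by
  induction n with
  | zero => rfl
  | succ n ih =>
    have h1 := ih fun i hi => h i (by omega)
    have h2 := h n (by omega)
    funext i p
    simp only [ch, h1, h2]

theorem ch_mono (L : ℕ) (x : ℕ → ℤ × ℤ) (n i : ℕ) (p : ℤ × ℤ) :
    ch L x n i p ≤ ch L x (n + 1) i p := by
  simp only [ch]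
  exact le_self_add

theorem one_le_ch (W : Set (ℤ × ℤ)) (L : ℕ) (x : ℕ → ℤ × ℤ) (n : ℕ)
    (hx : ∀ i < n, x i ∈ bdry W (cl x i)) (p : ℤ × ℤ) (hp : p ∈ cl x n) (i : ℕ)
    (hi : (L : ℤ) + i + 1 ≤ p.1) : 1 ≤ ch L x n i p := by
  induction n generalizing p i with
  | zero =>
    exfalso
    unfold cl at hp
    simp at hp
    rw [hp] at hi
    simp at hi
    omega
  | succ n ih =>
    have hx' : ∀ i < n, x i ∈ bdry W (cl x i) := fun i hi => hx i (by omega)
    by_cases hpn : p ∈ cl x n
    · exact (ih hx' p hpn i hi).trans (ch_mono L x n i p)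
    · have hpx : p = x n := by
        unfold cl at hp hpn
        rw [mem_insert, mem_image] at hp hpn
        push Not at hpn
        rcases hp with hp | ⟨m, hm, hmp⟩
        · exact absurd hp hpn.1
        · rw [mem_range] at hm
          rcases Nat.lt_succ_iff_lt_or_eq.mp hm with h | h
          · exact absurd hmp (hpn.2 m (mem_range.mpr h))
          · rw [← hmp, h]
      subst hpx
      simp only [ch]
      have hL : (L : ℤ) < (x n).1 := by omega
      rw [if_pos ⟨trivial, hL⟩]
      cases i with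
      | zero => simp
      | succ i' =>
        simp only
        have hb := hx n (by omega)
        unfold bdry at hb
        rw [mem_sdiff, mem_biUnion] at hb
        obtain ⟨⟨w, hw, hwn⟩, _⟩ := hb
        unfold nb at hwn
        rw [mem_filter] at hwn
        have h4 : w ∈ nb4 (x n) := (nb4_symm w (x n)).mp hwn.1
        have h5 : (L : ℤ) + i' + 1 ≤ w.1 := by
          rw [mem_nb4] at h4
          push_cast at hi
          omega
        have h6 := ih hx' w hw i' h5
        exact h6.trans ((single_le_sum (f := fun w => ch L x n i' w)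
          (fun _ _ => zero_le) h4).trans le_add_self)

section Measure

variable {Ω : Type*} [MeasurableSpace Ω] (P : Measure Ω) [IsProbabilityMeasure P]
  (a : ℕ → Ω → ℤ × ℤ)

/-- extension of a finite history -/
noncomputable def ext (n : ℕ) (h : Fin n → ℤ × ℤ) : ℕ → ℤ × ℤ :=
  fun i => if hi : i < n then h ⟨i, hi⟩ else (0, 0)

theorem meas_hist (ham : ∀ n, Measurable (a n)) (n : ℕ) :
    Measurable (fun ω => (fun i : Fin n => a i ω)) :=
  measurable_pi_iff.mpr fun i => ham i

theorem ch_hist (L : ℕ) (n : ℕ) (ω : Ω) :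
    ch L (fun i => a i ω) n = ch L (ext n (fun i : Fin n => a i ω)) n := by
  refine ch_congr L _ _ n fun i hi => ?_
  unfold ext
  rw [dif_pos hi]

theorem meas_ch (ham : ∀ n, Measurable (a n)) (L n i : ℕ) (p : ℤ × ℤ) :
    Measurable (fun ω => ch L (fun i => a i ω) n i p) := by
  have h1 : (fun ω => ch L (fun i => a i ω) n i p) =
      (fun h : Fin n → ℤ × ℤ => ch L (ext n h) n i p) ∘ (fun ω => (fun i : Fin n => a i ω)) := by
    funext ω
    simp only [Function.comp]
    rw [ch_hist]
  rw [h1]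
  exact (measurable_of_countable _).comp (meas_hist a ham n)

theorem disint (ham : ∀ n, Measurable (a n)) (n : ℕ) (y : ℤ × ℤ) (q : ℝ≥0∞)
    (hq : ∀ h : ℕ → ℤ × ℤ, P {ω | (∀ i < n, a i ω = h i) ∧ a n ω = y} ≤
      q * P {ω | ∀ i < n, a i ω = h i}) (L i : ℕ) (p : ℤ × ℤ) :
    ∫⁻ ω, (if a n ω = y then ch L (fun i => a i ω) n i p else 0) ∂P ≤
      q * ∫⁻ ω, ch L (fun i => a i ω) n i p ∂P := by
  have hE : MeasurableSet {ω | a n ω = y} := ham n (measurableSet_singleton y)
  have h1 : ∫⁻ ω, (if a n ω = y then ch L (fun i => a i ω) n i p else 0) ∂P =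
      ∫⁻ ω in {ω | a n ω = y}, ch L (fun i => a i ω) n i p ∂P := by
    rw [← lintegral_indicator hE]
    refine lintegral_congr fun ω => ?_
    by_cases h : a n ω = y
    · rw [if_pos h, Set.indicator_of_mem (by exact h)]
    · rw [if_neg h, Set.indicator_of_notMem (by exact h)]
  rw [h1]
  set G : (Fin n → ℤ × ℤ) → ℝ≥0∞ := fun h => ch L (ext n h) n i p with hG
  have hGm : Measurable G := measurable_of_countable _
  have h2 : ∀ μ : Measure Ω, ∫⁻ ω, ch L (fun i => a i ω) n i p ∂μ =
      ∑' h : Fin n → ℤ × ℤ, G h * μ {ω | (fun i : Fin n => a i ω) = h} := by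
    intro μ
    have h3 : ∫⁻ ω, ch L (fun i => a i ω) n i p ∂μ =
        ∫⁻ h, G h ∂(μ.map (fun ω => (fun i : Fin n => a i ω))) := by
      rw [lintegral_map hGm (meas_hist a ham n)]
      refine lintegral_congr fun ω => ?_
      rw [ch_hist]
    rw [h3, lintegral_countable']
    refine tsum_congr fun h => ?_
    rw [Measure.map_apply (meas_hist a ham n) (measurableSet_singleton h)]
    rfl
  rw [h2, h2, ← ENNReal.tsum_mul_left]
  refine ENNReal.tsum_le_tsum fun h => ?_
  have hm : MeasurableSet {ω | (fun i : Fin n => a i ω) = h} :=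
    meas_hist a ham n (measurableSet_singleton h)
  rw [Measure.restrict_apply hm]
  have e1 : {ω | (fun i : Fin n => a i ω) = h} ∩ {ω | a n ω = y} =
      {ω | (∀ i < n, a i ω = ext n h i) ∧ a n ω = y} := by
    ext ω
    simp only [Set.mem_inter_iff, Set.mem_ofPred_eq]
    refine and_congr_left fun _ => ?_
    constructor
    · intro hh i hi
      unfold ext
      rw [dif_pos hi, ← hh]
    · intro hh
      funext i
      have := hh i i.2
      unfold ext at this
      rw [dif_pos i.2] at this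
      exact this
  have e2 : {ω | (fun i : Fin n => a i ω) = h} = {ω | ∀ i < n, a i ω = ext n h i} := by
    ext ω
    simp only [Set.mem_ofPred_eq]
    constructor
    · intro hh i hi
      unfold ext
      rw [dif_pos hi, ← hh]
    · intro hh
      funext i
      have := hh i i.2
      unfold ext at this
      rw [dif_pos i.2] at this
      exact this
  rw [e1, e2]
  calc G h * P {ω | (∀ i < n, a i ω = ext n h i) ∧ a n ω = y}
      ≤ G h * (q * P {ω | ∀ i < n, a i ω = ext n h i}) := by gcongr; exact hq _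
    _ = _ := by ring

theorem chain_step (ham : ∀ n, Measurable (a n)) (L : ℕ) (q : ℝ≥0∞)
    (hq : ∀ (n : ℕ) (y : ℤ × ℤ), (L : ℤ) < y.1 → ∀ h : ℕ → ℤ × ℤ,
      P {ω | (∀ i < n, a i ω = h i) ∧ a n ω = y} ≤ q * P {ω | ∀ i < n, a i ω = h i})
    (n i : ℕ) :
    ∫⁻ ω, ∑' p, ch L (fun i => a i ω) (n + 1) (i + 1) p ∂P ≤
      ∫⁻ ω, ∑' p, ch L (fun i => a i ω) n (i + 1) p ∂P +
        4 * q * ∫⁻ ω, ∑' p, ch L (fun i => a i ω) n i p ∂P := by
  have h1 : ∀ ω, ∑' p, ch L (fun i => a i ω) (n + 1) (i + 1) p ≤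
      ∑' p, ch L (fun i => a i ω) n (i + 1) p +
      ∑' w, ∑ y ∈ nb4 w, (if (L : ℤ) < y.1 then
        (if a n ω = y then ch L (fun i => a i ω) n i w else 0) else 0) := by
    intro ω
    simp only [ch]
    rw [ENNReal.tsum_add]
    refine add_le_add le_rfl ?_
    have h2 : ∑' p, (if p = a n ω ∧ (L : ℤ) < (a n ω).1 then
        ∑ w ∈ nb4 (a n ω), ch L (fun i => a i ω) n i w else 0) =
        if (L : ℤ) < (a n ω).1 then ∑ w ∈ nb4 (a n ω), ch L (fun i => a i ω) n i w else 0 := by
      rw [tsum_eq_single (a n ω)]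
      · simp
      · intro p hp
        rw [if_neg]
        tauto
    rw [h2]
    split_ifs with hL
    · refine le_trans ?_ (ENNReal.sum_le_tsum (nb4 (a n ω)))
      refine sum_le_sum fun w hw => ?_
      have hw' : a n ω ∈ nb4 w := (nb4_symm _ _).mp hw
      refine le_trans ?_ (single_le_sum (f := fun y => if (L : ℤ) < y.1 then
        (if a n ω = y then ch L (fun i => a i ω) n i w else 0) else 0) (fun _ _ => zero_le) hw')
      simp only [if_pos hL, if_true]
      exact le_rfl
    · exact zero_le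
  have hmeas : ∀ w : ℤ × ℤ, ∀ y : ℤ × ℤ, Measurable (fun ω => if (L : ℤ) < y.1 then
        (if a n ω = y then ch L (fun i => a i ω) n i w else 0) else 0) := by
    intro w y
    by_cases hy : (L : ℤ) < y.1
    · simp only [if_pos hy]
      exact Measurable.ite (ham n (measurableSet_singleton y)) (meas_ch a ham L n i w)
        measurable_const
    · simp only [if_neg hy]
      exact measurable_const
  calc _ ≤ ∫⁻ ω, (∑' p, ch L (fun i => a i ω) n (i + 1) p +
      ∑' w, ∑ y ∈ nb4 w, (if (L : ℤ) < y.1 then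
        (if a n ω = y then ch L (fun i => a i ω) n i w else 0) else 0)) ∂P :=
        lintegral_mono h1
    _ = ∫⁻ ω, ∑' p, ch L (fun i => a i ω) n (i + 1) p ∂P +
      ∫⁻ ω, ∑' w, ∑ y ∈ nb4 w, (if (L : ℤ) < y.1 then
        (if a n ω = y then ch L (fun i => a i ω) n i w else 0) else 0) ∂P :=
        lintegral_add_left (Measurable.tsum fun p => meas_ch a ham L n (i + 1) p) _
    _ ≤ _ := by
        gcongr
        rw [lintegral_tsum (fun w => (Finset.measurable_fun_sum _ fun y _ => hmeas w y).aemeasurable)]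
        rw [lintegral_tsum (fun w => (meas_ch a ham L n i w).aemeasurable), ← ENNReal.tsum_mul_left]
        refine ENNReal.tsum_le_tsum fun w => ?_
        rw [lintegral_finsetSum _ fun y _ => hmeas w y]
        calc ∑ y ∈ nb4 w, ∫⁻ ω, (if (L : ℤ) < y.1 then
              (if a n ω = y then ch L (fun i => a i ω) n i w else 0) else 0) ∂P
            ≤ ∑ y ∈ nb4 w, q * ∫⁻ ω, ch L (fun i => a i ω) n i w ∂P := by
              refine sum_le_sum fun y _ => ?_
              by_cases hy : (L : ℤ) < y.1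
              · simp only [if_pos hy]
                exact disint P a ham n y q (hq n y hy) L i w
              · simp only [if_neg hy, lintegral_zero]
                exact zero_le
          _ = (nb4 w).card * (q * ∫⁻ ω, ch L (fun i => a i ω) n i w ∂P) := by
              rw [sum_const, nsmul_eq_mul]
          _ ≤ 4 * (q * ∫⁻ ω, ch L (fun i => a i ω) n i w ∂P) := by
              gcongr
              exact_mod_cast nb4_card w
          _ = _ := by ring

theorem chain_zero (ham : ∀ n, Measurable (a n)) (L n : ℕ) :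
    ∫⁻ ω, ∑' p, ch L (fun i => a i ω) n 0 p ∂P ≤ n := by
  induction n with
  | zero => simp [ch]
  | succ n ih =>
    have h1 : ∀ ω, ∑' p, ch L (fun i => a i ω) (n + 1) 0 p ≤
        ∑' p, ch L (fun i => a i ω) n 0 p + 1 := by
      intro ω
      simp only [ch]
      rw [ENNReal.tsum_add]
      refine add_le_add le_rfl ?_
      rw [tsum_eq_single (a n ω)]
      · split_ifs <;> simp
      · intro p hp
        rw [if_neg]
        tauto
    calc _ ≤ ∫⁻ ω, (∑' p, ch L (fun i => a i ω) n 0 p + 1) ∂P := lintegral_mono h1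
      _ = ∫⁻ ω, ∑' p, ch L (fun i => a i ω) n 0 p ∂P + 1 := by
        rw [lintegral_add_right _ measurable_const]
        simp
      _ ≤ n + 1 := by gcongr
      _ = _ := by push_cast; rfl

theorem chain_bound (ham : ∀ n, Measurable (a n)) (L : ℕ) (q : ℝ≥0∞)
    (hq : ∀ (n : ℕ) (y : ℤ × ℤ), (L : ℤ) < y.1 → ∀ h : ℕ → ℤ × ℤ,
      P {ω | (∀ i < n, a i ω = h i) ∧ a n ω = y} ≤ q * P {ω | ∀ i < n, a i ω = h i})
    (n i : ℕ) :
    ∫⁻ ω, ∑' p, ch L (fun i => a i ω) n i p ∂P ≤ (n.choose (i + 1) : ℝ≥0∞) * (4 * q) ^ i := by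
  induction i generalizing n with
  | zero =>
    simp only [zero_add, Nat.choose_one_right, pow_zero, mul_one]
    exact chain_zero P a ham L n
  | succ i ihi =>
    induction n with
    | zero => simp [ch]
    | succ n ihn =>
      calc _ ≤ _ := chain_step P a ham L q hq n i
        _ ≤ (n.choose (i + 1 + 1) : ℝ≥0∞) * (4 * q) ^ (i + 1) +
            4 * q * ((n.choose (i + 1) : ℝ≥0∞) * (4 * q) ^ i) := by
          gcongr
          exact ihi n
        _ = _ := by
          rw [Nat.choose_succ_succ n (i + 1)]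
          push_cast
          ring

/-- Kesten's chain bound -/
theorem kesten (W : Set (ℤ × ℤ)) (ham : ∀ n, Measurable (a n))
    (hmem : ∀ n, ∀ᵐ ω ∂P, a n ω ∈ bdry W (cl (fun i => a i ω) n)) (L : ℕ) (q : ℝ≥0∞)
    (hq : ∀ (n : ℕ) (y : ℤ × ℤ), ((L + 1 : ℕ) : ℤ) < y.1 → ∀ h : ℕ → ℤ × ℤ,
      P {ω | (∀ i < n, a i ω = h i) ∧ a n ω = y} ≤ q * P {ω | ∀ i < n, a i ω = h i})
    (n : ℕ) :
    P {ω | ∃ p ∈ cl (fun i => a i ω) n, (2 * (L + 1 : ℕ) : ℤ) ≤ p.1} ≤
      (n.choose (L + 1) : ℝ≥0∞) * (4 * q) ^ L := by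
  have hae : ∀ᵐ ω ∂P, ∀ n, a n ω ∈ bdry W (cl (fun i => a i ω) n) := ae_all_iff.mpr hmem
  have hmeasT : Measurable (fun ω => ∑' p, ch (L + 1) (fun i => a i ω) n L p) :=
    Measurable.tsum fun p => meas_ch a ham (L + 1) n L p
  calc P {ω | ∃ p ∈ cl (fun i => a i ω) n, (2 * (L + 1 : ℕ) : ℤ) ≤ p.1}
      ≤ P {ω | 1 ≤ ∑' p, ch (L + 1) (fun i => a i ω) n L p} := by
        refine measure_mono_ae ?_
        filter_upwards [hae] with ω hω
        rintro ⟨p, hp, hp2⟩
        refine (one_le_ch W (L + 1) (fun i => a i ω) n (fun i _ => hω i) p hp L ?_).trans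
          (ENNReal.le_tsum p)
        push_cast at hp2 ⊢
        linarith
    _ ≤ ∫⁻ ω, ∑' p, ch (L + 1) (fun i => a i ω) n L p ∂P := by
        have := meas_ge_le_lintegral_div hmeasT.aemeasurable (ε := 1) one_ne_zero ENNReal.one_ne_top
          (μ := P)
        simpa using this
    _ ≤ _ := chain_bound P a ham (L + 1) q hq n L

end Measure

end Pool.Agent.H27R3.DLA
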