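import Mathlib
import Pool.Agent.H27R3.DLA.Beurling
import Pool.Agent.H27R3.DLA.Chain

set_option autoImplicit false
open scoped Classical ENNReal
open Finset MeasureTheory

namespace Pool.Agent.H27R3.DLA

theorem wedge_eq (θ₁ θ₂ : ℝ) (h1 : -(Real.pi / 2) < θ₁) (h10 : θ₁ ≤ 0) (h20 : 0 ≤ θ₂)
    (h2 : θ₂ < Real.pi / 2) : wedge θ₁ θ₂ = WS (Real.tan θ₁) (Real.tan θ₂) := by
  ext z
  obtain ⟨x, y⟩ := z
  simp only [wedge, WS, Set.mem_ofPred_eq, Prod.mk.injEq]
  have hpi := Real.pi_pos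
  have e1 : Real.arctan (Real.tan θ₁) = θ₁ := Real.arctan_tan (by linarith) (by linarith)
  have e2 : Real.arctan (Real.tan θ₂) = θ₂ := Real.arctan_tan (by linarith) (by linarith)
  constructor
  · rintro (⟨rfl, rfl⟩ | ⟨hx, h⟩ | ⟨_, _, h⟩ | ⟨_, _, h⟩)
    · simp
    · have hx' : (0 : ℝ) < x := by exact_mod_cast hx
      rw [Set.mem_Icc] at h
      refine ⟨hx.le, ?_, ?_⟩
      · have := h.1
        rw [← e1, Real.arctan_le_arctan_iff, le_div_iff₀ hx'] at this
        exact this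
      · have := h.2
        rw [← e2, Real.arctan_le_arctan_iff, div_le_iff₀ hx'] at this
        exact this
    · rw [Set.mem_Icc] at h
      linarith
    · rw [Set.mem_Icc] at h
      linarith
  · rintro ⟨hx, ha, hb⟩
    rcases hx.lt_or_eq with hx | hx
    · right; left
      have hx' : (0 : ℝ) < x := by exact_mod_cast hx
      refine ⟨hx, ?_, ?_⟩
      · rw [← e1, Real.arctan_le_arctan_iff, le_div_iff₀ hx']
        exact ha
      · rw [← e2, Real.arctan_le_arctan_iff, div_le_iff₀ hx']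
        exact hb
    · left
      subst hx
      simp only [Int.cast_zero, mul_zero] at ha hb
      have : (y : ℝ) = 0 := le_antisymm hb ha
      exact ⟨rfl, by exact_mod_cast this⟩

section Cluster

variable (W : Set (ℤ × ℤ))

theorem cl_congr (h h' : ℕ → ℤ × ℤ) (n : ℕ) (hh : ∀ i < n, h i = h' i) : cl h n = cl h' n := by
  unfold cl
  congr 1
  refine image_congr ?_
  intro i hi
  rw [coe_range] at hi
  exact hh i hi

theorem cl_succ (h : ℕ → ℤ × ℤ) (n : ℕ) : cl h (n + 1) = insert (h n) (cl h n) := by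
  unfold cl
  rw [range_add_one, image_insert]
  ext p
  simp only [mem_insert]
  tauto

theorem cl_mono (h : ℕ → ℤ × ℤ) {n m : ℕ} (hnm : n ≤ m) : cl h n ⊆ cl h m := by
  unfold cl
  exact insert_subset_insert _ (image_subset_image (range_mono hnm))

theorem cl_sub (h0 : (0, 0) ∈ W) (h : ℕ → ℤ × ℤ) (n : ℕ)
    (hx : ∀ i < n, h i ∈ bdry W (cl h i)) : ∀ p ∈ cl h n, p ∈ W := by
  intro p hp
  unfold cl at hp
  rw [mem_insert, mem_image] at hp
  rcases hp with rfl | ⟨i, hi, rfl⟩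
  · exact h0
  · rw [mem_range] at hi
    have := hx i hi
    unfold bdry at this
    rw [mem_sdiff, mem_biUnion] at this
    obtain ⟨⟨w, _, hw⟩, _⟩ := this
    exact ((mem_nb W w _).mp hw).2

theorem cl_level (h : ℕ → ℤ × ℤ) (n : ℕ)
    (hx : ∀ i < n, h i ∈ bdry W (cl h i)) (y : ℤ × ℤ) :
    ∀ p ∈ cl h n, ∀ s : ℕ, lev y p ≤ s → s ≤ lev y (0, 0) → ∃ q ∈ cl h n, lev y q = s := by
  induction n with
  | zero =>
    intro p hp s h1 h2
    have : p = (0, 0) := by
      unfold cl at hp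
      simpa using hp
    subst this
    exact ⟨_, hp, le_antisymm h1 h2⟩
  | succ n ih =>
    have ih' := ih fun i hi => hx i (by omega)
    intro p hp s h1 h2
    rw [cl_succ] at hp ⊢
    rw [mem_insert] at hp
    rcases hp with rfl | hp
    · rcases Nat.eq_or_lt_of_le h1 with h | h
      · exact ⟨_, mem_insert_self _ _, h⟩
      · have hb := hx n (by omega)
        unfold bdry at hb
        rw [mem_sdiff, mem_biUnion] at hb
        obtain ⟨⟨w, hw, hw2⟩, _⟩ := hb
        have h4 := lev_lip y w _ ((mem_nb W w _).mp hw2).1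
        obtain ⟨q, hq, hq2⟩ := ih' w hw s (by omega) h2
        exact ⟨q, mem_insert_of_mem hq, hq2⟩
    · obtain ⟨q, hq, hq2⟩ := ih' p hp s h1 h2
      exact ⟨q, mem_insert_of_mem hq, hq2⟩

end Cluster

section Bound

variable {Ω : Type*} [MeasurableSpace Ω] (P : Measure Ω) (a : ℕ → Ω → ℤ × ℤ)

theorem WS_infinite (t₁ t₂ : ℝ) (ht₁ : t₁ ≤ 0) (ht₂ : 0 ≤ t₂) : (WS t₁ t₂).Infinite := by
  refine Set.infinite_of_injective_forall_mem (f := fun n : ℕ => ((n : ℤ), (0 : ℤ))) ?_ ?_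
  · intro a b hab
    simpa using hab
  · intro n
    refine ⟨by positivity, ?_, ?_⟩
    · simp only [Int.cast_natCast, Int.cast_zero]
      exact mul_nonpos_of_nonpos_of_nonneg ht₁ (by positivity)
    · simp only [Int.cast_natCast, Int.cast_zero]
      positivity

/-- uniform upper bound on the conditional attachment probabilities -/
theorem attach_bound (t₁ t₂ : ℝ) (ht₁ : t₁ ≤ 0) (ht₂ : 0 ≤ t₂)
    (hD : IsDLA (WS t₁ t₂) P a) (M ρ j : ℕ) (hρ : (ρ : ℝ) * (2 + (t₂ - t₁)) ≤ (t₂ - t₁) * M)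
    (hρM : ρ ≤ M) (hj : 2 * (2 ^ (j + 1) - 1) ≤ ρ) (n : ℕ) (y : ℤ × ℤ) (hy : (M : ℤ) < y.1)
    (h : ℕ → ℤ × ℤ) :
    P {ω | (∀ i < n, a i ω = h i) ∧ a n ω = y} ≤
      ENNReal.ofReal (Real.sqrt (128 * (1024 / 1025 : ℝ) ^ j)) * P {ω | ∀ i < n, a i ω = h i} := by
  have hsub : P {ω | (∀ i < n, a i ω = h i) ∧ a n ω = y} ≤ P {ω | ∀ i < n, a i ω = h i} :=
    measure_mono fun ω hω => hω.1
  by_cases h0 : P {ω | ∀ i < n, a i ω = h i} = 0
  · rw [h0] at hsub
    rw [nonpos_iff_eq_zero.mp hsub]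
    exact zero_le
  -- the history is legitimate
  have hleg : ∀ i < n, h i ∈ bdry (WS t₁ t₂) (cl h i) := by
    have hae : ∀ᵐ ω ∂P, ∀ n, a n ω ∈ bdry (WS t₁ t₂) (cl (fun i => a i ω) n) :=
      ae_all_iff.mpr hD.mem
    obtain ⟨ω, hω1, hω2⟩ : ∃ ω, (∀ i < n, a i ω = h i) ∧
        ∀ n, a n ω ∈ bdry (WS t₁ t₂) (cl (fun i => a i ω) n) := by
      by_contra hcon
      push Not at hcon
      apply h0
      refine measure_mono_null ?_ (ae_iff.mp hae)
      intro ω hω
      obtain ⟨m, hm⟩ := hcon ω hω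
      simp only [Set.mem_ofPred_eq, not_forall]
      exact ⟨m, hm⟩
    intro i hi
    have := hω2 i
    rw [hω1 i hi, cl_congr _ h i fun m hm => hω1 m (by omega)] at this
    exact this
  by_cases hyB : y ∈ bdry (WS t₁ t₂) (cl h n)
  · obtain ⟨H, hH1, hH2⟩ := hD.law n h h0 y hyB
    rw [hH2, mul_comm]
    gcongr
    have hW0 : ((0 : ℤ), (0 : ℤ)) ∈ WS t₁ t₂ := by simp [WS]
    have : Infinite (WS t₁ t₂) := (WS_infinite t₁ t₂ ht₁ ht₂).to_subtype
    refine le_of_tendsto hH1 ?_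
    -- finitely many exceptions
    have hfin : {x : WS t₁ t₂ | ¬ ((x : ℤ × ℤ) ∉ cl h n ∧
        2 * (2 ^ (j + 1) - 1) ≤ lev y (x : ℤ × ℤ))}.Finite := by
      set K : ℤ := 2 * (2 ^ (j + 1) - 1) with hK
      have : {x : ℤ × ℤ | x ∈ cl h n ∨ lev y x < 2 * (2 ^ (j + 1) - 1)}.Finite := by
        refine Set.Finite.subset ((cl h n).finite_toSet.union
          ((Icc (y.1 - K) (y.1 + K) ×ˢ Icc (y.2 - K) (y.2 + K)).finite_toSet)) ?_
        rintro x (hx | hx)
        · left; exact hx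
        · right
          have hp : 1 ≤ 2 ^ (j + 1) := Nat.one_le_two_pow
          have hK' : K = ((2 * (2 ^ (j + 1) - 1) : ℕ) : ℤ) := by
            rw [hK]
            push_cast [hp]
            ring
          unfold lev at hx
          rw [mem_coe, mem_product, mem_Icc, mem_Icc, hK']
          omega
      refine Set.Finite.subset (this.preimage (Set.injOn_of_injective Subtype.val_injective)) ?_
      intro x hx
      simp only [Set.mem_ofPred_eq, not_and_or, not_not, not_le] at hx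
      exact hx
    have hev : ∀ᶠ x : WS t₁ t₂ in Filter.cofinite, ((x : ℤ × ℤ) ∉ cl h n ∧
        2 * (2 ^ (j + 1) - 1) ≤ lev y (x : ℤ × ℤ)) := hfin
    filter_upwards [hev] with x hx
    unfold hitP
    refine ciSup_le fun k => ?_
    refine hit_bound (WS t₁ t₂) (cl h n) y ρ ?_ ?_ j hj k x x.2 hx.1 hx.2
    · intro s hs1 hs2 p q hp hps hq hqs
      refine ring_conn t₁ t₂ ht₁ ht₂ y s ?_ (by omega) p q hp hps hq hqs
      have h1 : (s : ℝ) ≤ ρ := by exact_mod_cast hs2
      have h2 : (M : ℝ) ≤ y.1 := by exact_mod_cast hy.le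
      calc (s : ℝ) * (2 + (t₂ - t₁)) ≤ ρ * (2 + (t₂ - t₁)) := by
            apply mul_le_mul_of_nonneg_right h1; linarith
        _ ≤ (t₂ - t₁) * M := hρ
        _ ≤ _ := by apply mul_le_mul_of_nonneg_left h2; linarith
    · intro s hs1 hs2
      have hb := hyB
      unfold bdry at hb
      rw [mem_sdiff, mem_biUnion] at hb
      obtain ⟨⟨w, hw, hw2⟩, _⟩ := hb
      have h4 := lev_lip y w y ((mem_nb _ w _).mp hw2).1
      rw [(lev_eq_zero y y).mpr rfl] at h4
      have h5 : s ≤ lev y (0, 0) := by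
        unfold lev
        simp only
        omega
      obtain ⟨q, hq, hq2⟩ := cl_level _ h n hleg y w hw s (by omega) h5
      exact ⟨q, hq, cl_sub _ hW0 h n hleg q hq, hq2⟩
  · have : P {ω | (∀ i < n, a i ω = h i) ∧ a n ω = y} = 0 := by
      refine measure_mono_null ?_ (ae_iff.mp (hD.mem n))
      intro ω hω
      simp only [Set.mem_ofPred_eq]
      rw [hω.2, cl_congr _ h n hω.1]
      exact hyB
    rw [this]
    exact zero_le

end Bound

end Pool.Agent.H27R3.DLA
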