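import Mathlib
import Pool.Agent.H27R3.DLA.Process

set_option autoImplicit false
open scoped Classical Topology
open Finset Filter

namespace Pool.Agent.H27R3.DLA

section Limit

variable (W : Set (ℤ × ℤ)) (B : Finset (ℤ × ℤ)) (y : ℤ × ℤ)

theorem hit_bdd (z : ℤ × ℤ) : BddAbove (Set.range fun k => hit W B y k z) :=
  ⟨1, by rintro _ ⟨k, rfl⟩; exact hit_le_one W B y k z⟩

theorem tendsto_hit (z : ℤ × ℤ) :
    Tendsto (fun k => hit W B y k z) atTop (𝓝 (hitP W B y z)) :=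
  tendsto_atTop_ciSup (fun _ _ h => hit_mono W B y h z) (hit_bdd W B y z)

theorem hit_le_hitP (k : ℕ) (z : ℤ × ℤ) : hit W B y k z ≤ hitP W B y z :=
  le_ciSup (hit_bdd W B y z) k

theorem hitP_nonneg (z : ℤ × ℤ) : 0 ≤ hitP W B y z :=
  (hit_nonneg W B y 0 z).trans (hit_le_hitP W B y 0 z)

theorem hit_mem (k : ℕ) (z : ℤ × ℤ) (hz : z ∈ B) :
    hit W B y k z = if z = y then 1 else 0 := by
  cases k with
  | zero => simp [hit, hz]
  | succ k => simp [hit, hz]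

theorem hitP_mem (z : ℤ × ℤ) (hz : z ∈ B) : hitP W B y z = if z = y then 1 else 0 := by
  unfold hitP
  simp only [hit_mem W B y _ z hz]
  exact ciSup_const

theorem hitP_harm (z : ℤ × ℤ) (hz : z ∉ B) :
    ((nb W z).card : ℝ) * hitP W B y z = ∑ w ∈ nb W z, hitP W B y w := by
  have h1 : Tendsto (fun k => ((nb W z).card : ℝ) * hit W B y (k + 1) z) atTop
      (𝓝 (((nb W z).card : ℝ) * hitP W B y z)) :=
    ((tendsto_hit W B y z).comp (tendsto_add_atTop_nat 1)).const_mul _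
  have h2 : Tendsto (fun k => ∑ w ∈ nb W z, hit W B y k w) atTop
      (𝓝 (∑ w ∈ nb W z, hitP W B y w)) :=
    tendsto_finsetSum _ fun w _ => tendsto_hit W B y w
  refine tendsto_nhds_unique h1 (h2.congr fun k => ?_)
  rw [hit, if_neg hz]
  rcases Nat.eq_zero_or_pos (nb W z).card with hc | hc
  · rw [card_eq_zero.mp hc]
    simp
  · rw [mul_div_cancel₀]
    exact_mod_cast hc.ne'

theorem dir_mono (c : ℤ × ℤ → ℤ × ℤ → ℝ) (hc : ∀ z w, 0 ≤ c z w) {F F' : Finset (ℤ × ℤ)}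
    (h : F ⊆ F') (v : ℤ × ℤ → ℝ) : dir c F v ≤ dir c F' v := by
  unfold dir
  refine (sum_le_sum fun z _ => sum_le_sum_of_subset_of_nonneg h
    (fun w _ _ => mul_nonneg (hc z w) (sq_nonneg _))).trans ?_
  exact sum_le_sum_of_subset_of_nonneg h
    (fun z _ _ => sum_nonneg fun w _ => mul_nonneg (hc z w) (sq_nonneg _))

theorem hit_energy (F : Finset (ℤ × ℤ)) (k : ℕ) : dir (adj W) F (hit W B y k) ≤ 8 := by
  set K : ℤ := k + 1 with hK
  set F' : Finset (ℤ × ℤ) :=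
    F ∪ (Icc (y.1 - K) (y.1 + K)) ×ˢ (Icc (y.2 - K) (y.2 + K)) with hF'
  have hmem : ∀ w, lev y w ≤ k + 1 → w ∈ F' := by
    intro w hw
    rw [hF', mem_union, mem_product, mem_Icc, mem_Icc]
    right
    unfold lev at hw
    omega
  refine (dir_mono (adj W) (adj_nonneg W) (subset_union_left : F ⊆ F') _).trans ?_
  set v := hit W B y k with hv
  have h1 := sum_by_parts (adj W) (adj_symm W) F' v v
  have h2 : dir (adj W) F' v =
      ∑ z ∈ F', ∑ w ∈ F', adj W z w * (v z - v w) * (v z - v w) :=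
    sum_congr rfl fun z _ => sum_congr rfl fun w _ => by ring
  rw [h2, ← h1]
  have h3 : ∑ z ∈ F', v z * ∑ w ∈ F', adj W z w * (v z - v w) ≤
      ∑ z ∈ F', (if z = y then (4 : ℝ) else 0) := by
    refine sum_le_sum fun z hz => ?_
    have a2 : 0 ≤ v z := hit_nonneg W B y k z
    have a3 : v z ≤ 1 := hit_le_one W B y k z
    split_ifs with hzy
    · have a1 : ∑ w ∈ F', adj W z w * (v z - v w) ≤ 4 := by
        refine le_trans (sum_le_sum fun w _ => ?_) (sum_adj_le W F' z)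
        calc adj W z w * (v z - v w) ≤ adj W z w * 1 := by
              apply mul_le_mul_of_nonneg_left _ (adj_nonneg W z w)
              have : 0 ≤ v w := hit_nonneg W B y k w
              linarith
          _ = _ := mul_one _
      nlinarith
    · by_cases h0 : v z = 0
      · rw [h0, zero_mul]
      refine mul_nonpos_of_nonneg_of_nonpos a2 ?_
      by_cases hzW : z ∈ W
      · have hzB : z ∉ B := fun hB => h0 (hit_zero_of_mem W B y hB hzy)
        have hlev : lev y z ≤ k := hit_supp W B y k z h0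
        have hnbF : ∀ w ∈ nb W z, w ∈ F' := by
          intro w hw
          rw [mem_nb] at hw
          refine hmem w ?_
          have := lev_lip y w z ((nb4_symm z w).mp hw.1)
          omega
        rw [sum_adj W F' z hzW hnbF]
        rw [sum_sub_distrib, sum_const, nsmul_eq_mul]
        have hm := hit_mono_succ W B y k z
        have e1 : hit W B y (k + 1) z =
            (∑ w ∈ nb W z, hit W B y k w) / ((nb W z).card : ℝ) := by
          rw [hit, if_neg hzB]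
        rw [e1] at hm
        rcases Nat.eq_zero_or_pos (nb W z).card with hc | hc
        · rw [hc, card_eq_zero.mp hc]
          simp
        · have hc' : (0 : ℝ) < (nb W z).card := by exact_mod_cast hc
          rw [le_div_iff₀ hc'] at hm
          linarith
      · have : ∑ w ∈ F', adj W z w * (v z - v w) = 0 := by
          refine sum_eq_zero fun w _ => ?_
          unfold adj
          rw [if_neg (fun h => hzW h.1), zero_mul]
        rw [this]
  have h4 : ∑ z ∈ F', (if z = y then (4 : ℝ) else 0) ≤ 4 := by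
    rw [sum_ite_eq' F' y]
    split_ifs <;> norm_num
  linarith

theorem hitP_energy (F : Finset (ℤ × ℤ)) : dir (adj W) F (hitP W B y) ≤ 8 := by
  have h : Tendsto (fun k => dir (adj W) F (hit W B y k)) atTop
      (𝓝 (dir (adj W) F (hitP W B y))) := by
    unfold dir
    refine tendsto_finsetSum _ fun z _ => tendsto_finsetSum _ fun w _ => ?_
    exact (((tendsto_hit W B y z).sub (tendsto_hit W B y w)).pow 2).const_mul _
  exact le_of_tendsto' h fun k => hit_energy W B y F k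

/-- total hitting probability within `k` steps is at most one -/
theorem sum_hit_le_one (S : Finset (ℤ × ℤ)) (k : ℕ) (z : ℤ × ℤ) :
    ∑ b ∈ S, hit W B b k z ≤ 1 := by
  induction k generalizing z with
  | zero =>
    by_cases hz : z ∈ B
    · simp only [hit, hz, true_and]
      rw [sum_ite_eq]
      split_ifs <;> norm_num
    · simp [hit, hz]
  | succ k ih =>
    by_cases hz : z ∈ B
    · simp only [hit, hz, if_true]
      rw [sum_ite_eq]
      split_ifs <;> norm_num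
    · simp only [hit, hz, if_false]
      rw [← sum_div, sum_comm]
      apply div_le_one_of_le₀ _ (by positivity)
      refine (sum_le_sum fun w _ => ih w).trans ?_
      simp

theorem sum_hitP_le_one (S : Finset (ℤ × ℤ)) (z : ℤ × ℤ) :
    ∑ b ∈ S, hitP W B b z ≤ 1 :=
  le_of_tendsto' (tendsto_finsetSum _ fun b _ => tendsto_hit W B b z)
    fun k => sum_hit_le_one W B S k z

theorem sum_energy (S F : Finset (ℤ × ℤ)) :
    dir (adj W) F (fun z => ∑ b ∈ S, hitP W B b z) ≤ 8 * (S.card : ℝ) ^ 2 := by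
  have h1 : dir (adj W) F (fun z => ∑ b ∈ S, hitP W B b z) ≤
      ∑ b ∈ S, (S.card : ℝ) * dir (adj W) F (hitP W B b) := by
    unfold dir
    simp_rw [mul_sum]
    rw [sum_comm (s := S)]
    refine sum_le_sum fun z _ => ?_
    rw [sum_comm (s := S)]
    refine sum_le_sum fun w _ => ?_
    rw [← sum_sub_distrib]
    have := sq_sum_le_card_mul_sum_sq (s := S) (f := fun b => hitP W B b z - hitP W B b w)
    calc _ ≤ adj W z w * ((S.card : ℝ) * ∑ b ∈ S, (hitP W B b z - hitP W B b w) ^ 2) :=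
          mul_le_mul_of_nonneg_left this (adj_nonneg W z w)
      _ = _ := by
        rw [mul_sum, mul_sum]
        exact sum_congr rfl fun b _ => by ring
  refine h1.trans ?_
  calc _ ≤ ∑ b ∈ S, (S.card : ℝ) * 8 :=
        sum_le_sum fun b _ => mul_le_mul_of_nonneg_left (hitP_energy W B b F) (by positivity)
    _ = _ := by
      rw [sum_const, nsmul_eq_mul]
      ring

end Limit

theorem small_col (D : ℕ → ℝ) (M : ℝ) (hD : ∀ r, 0 ≤ D r) (hM : ∀ N, ∑ r ∈ range N, D r ≤ M)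
    (ε : ℝ) (hε : 0 < ε) (R : ℕ) : ∃ r, R ≤ r ∧ D r * ((r : ℝ) + 1) < ε := by
  by_contra hcon
  push Not at hcon
  have h1 : ∀ N, ε * ∑ r ∈ range N, (1 / ((r : ℝ) + 1)) ≤ M + ∑ r ∈ range R, ε := by
    intro N
    have h2 : ∀ r : ℕ, ε * (1 / ((r : ℝ) + 1)) ≤ D r + (if r < R then ε else 0) := by
      intro r
      have hr : (0 : ℝ) < (r : ℝ) + 1 := by positivity
      split_ifs with h
      · have : ε * (1 / ((r : ℝ) + 1)) ≤ ε := by
          have : 1 / ((r : ℝ) + 1) ≤ 1 := by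
            rw [div_le_one hr]
            have : (0 : ℝ) ≤ r := by positivity
            linarith
          nlinarith
        linarith [hD r]
      · have := hcon r (by omega)
        rw [mul_one_div, div_le_iff₀ hr]
        linarith
    rw [mul_sum]
    refine (sum_le_sum fun r _ => h2 r).trans ?_
    rw [sum_add_distrib]
    refine add_le_add (hM N) ?_
    rw [← sum_filter]
    refine sum_le_sum_of_subset_of_nonneg ?_ fun _ _ _ => hε.le
    intro r hr
    rw [mem_filter] at hr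
    exact mem_range.mpr hr.2
  have h3 := Real.tendsto_sum_range_one_div_nat_succ_atTop.const_mul_atTop hε
  obtain ⟨N, hN⟩ := (h3.eventually (eventually_gt_atTop (M + ∑ r ∈ range R, ε))).exists
  exact absurd (h1 N) (not_le.mpr hN)

section Col

variable (t₁ t₂ : ℝ)

theorem WS_fin (N : ℤ) : {z : ℤ × ℤ | z ∈ WS t₁ t₂ ∧ z.1 ≤ N}.Finite := by
  refine Set.Finite.subset ((Icc (0 : ℤ) N ×ˢ Icc (⌈-(|t₁| * |(N : ℝ)|)⌉) (⌊|t₂| * |(N : ℝ)|⌋)).finite_toSet) ?_
  rintro z ⟨⟨h0, h1, h2⟩, h3⟩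
  rw [mem_coe, mem_product, mem_Icc, mem_Icc]
  have h0' : (0 : ℝ) ≤ z.1 := by exact_mod_cast h0
  have h3' : (z.1 : ℝ) ≤ N := by exact_mod_cast h3
  have h4 : (z.1 : ℝ) ≤ |(N : ℝ)| := h3'.trans (le_abs_self _)
  refine ⟨⟨h0, h3⟩, ?_, ?_⟩
  · rw [Int.ceil_le]
    have : -(|t₁| * |(N : ℝ)|) ≤ t₁ * z.1 := by
      have a1 : |t₁| * z.1 ≤ |t₁| * |(N : ℝ)| := mul_le_mul_of_nonneg_left h4 (abs_nonneg _)
      have a2 : -|t₁| * z.1 ≤ t₁ * z.1 := mul_le_mul_of_nonneg_right (neg_abs_le _) h0'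
      linarith
    exact this.trans h1
  · rw [Int.le_floor]
    have : t₂ * z.1 ≤ |t₂| * |(N : ℝ)| := by
      have a1 : |t₂| * z.1 ≤ |t₂| * |(N : ℝ)| := mul_le_mul_of_nonneg_left h4 (abs_nonneg _)
      have a2 : t₂ * z.1 ≤ |t₂| * z.1 := mul_le_mul_of_nonneg_right (le_abs_self _) h0'
      linarith
    exact h2.trans this

/-- the part of the wedge up to column `N` -/
noncomputable def Bx (N : ℤ) : Finset (ℤ × ℤ) := (WS_fin t₁ t₂ N).toFinset

theorem mem_Bx (N : ℤ) (z : ℤ × ℤ) : z ∈ Bx t₁ t₂ N ↔ z ∈ WS t₁ t₂ ∧ z.1 ≤ N := by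
  unfold Bx
  rw [Set.Finite.mem_toFinset]
  rfl

/-- two consecutive columns -/
noncomputable def Pc (r : ℕ) : Finset (ℤ × ℤ) :=
  (Bx t₁ t₂ (r + 1)).filter (fun z => (r : ℤ) ≤ z.1)

theorem mem_Pc (r : ℕ) (z : ℤ × ℤ) :
    z ∈ Pc t₁ t₂ r ↔ z ∈ WS t₁ t₂ ∧ (r : ℤ) ≤ z.1 ∧ z.1 ≤ r + 1 := by
  unfold Pc
  rw [mem_filter, mem_Bx]
  tauto

theorem Pc_card (ht : t₁ ≤ t₂) (r : ℕ) :
    ((Pc t₁ t₂ r).card : ℝ) ≤ 2 * (t₂ - t₁ + 1) * ((r : ℝ) + 1) := by
  have hsub : Pc t₁ t₂ r ⊆ ({(r : ℤ)} ×ˢ Icc ⌈t₁ * r⌉ ⌊t₂ * r⌋) ∪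
      ({(r : ℤ) + 1} ×ˢ Icc ⌈t₁ * (r + 1)⌉ ⌊t₂ * (r + 1)⌋) := by
    intro z hz
    rw [mem_Pc] at hz
    obtain ⟨⟨h0, h1, h2⟩, h3, h4⟩ := hz
    rw [mem_union, mem_product, mem_product, mem_singleton, mem_singleton, mem_Icc, mem_Icc,
      Int.ceil_le, Int.le_floor, Int.ceil_le, Int.le_floor]
    rcases (show z.1 = r ∨ z.1 = r + 1 by omega) with h | h
    · left
      have : (z.1 : ℝ) = r := by rw [h]; simp
      rw [this] at h1 h2
      exact ⟨h, h1, h2⟩
    · right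
      have : (z.1 : ℝ) = r + 1 := by rw [h]; push_cast; ring
      rw [this] at h1 h2
      exact ⟨h, h1, h2⟩
  have hcard : ∀ x : ℝ, 0 ≤ x → ((Icc ⌈t₁ * x⌉ ⌊t₂ * x⌋).card : ℝ) ≤ (t₂ - t₁) * x + 1 := by
    intro x hx
    rw [Int.card_Icc]
    have hnn : 0 ≤ (t₂ - t₁) * x + 1 := by
      have := mul_nonneg (sub_nonneg.mpr ht) hx
      linarith
    rcases le_or_gt (⌊t₂ * x⌋ + 1 - ⌈t₁ * x⌉) 0 with h | h
    · rw [Int.toNat_of_nonpos h]
      simpa using hnn
    · have e : (((⌊t₂ * x⌋ + 1 - ⌈t₁ * x⌉).toNat : ℤ) : ℝ) =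
          ((⌊t₂ * x⌋ + 1 - ⌈t₁ * x⌉ : ℤ) : ℝ) := by
        rw [Int.toNat_of_nonneg h.le]
      rw [Int.cast_natCast] at e
      rw [e]
      push_cast
      have a1 := Int.floor_le (t₂ * x)
      have a2 := Int.le_ceil (t₁ * x)
      linarith
  have h1 := (card_le_card hsub).trans (card_union_le _ _)
  rw [card_product, card_product, card_singleton, card_singleton, one_mul, one_mul] at h1
  have h2 := hcard r (by positivity)
  have h3 := hcard (r + 1) (by positivity)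
  have h4 : ((Pc t₁ t₂ r).card : ℝ) ≤ ((Icc ⌈t₁ * r⌉ ⌊t₂ * r⌋).card : ℝ) +
      ((Icc ⌈t₁ * ((r : ℝ) + 1)⌉ ⌊t₂ * ((r : ℝ) + 1)⌋).card : ℝ) := by exact_mod_cast h1
  have hr : (0 : ℝ) ≤ r := by positivity
  nlinarith [sub_nonneg.mpr ht]

theorem sum_Pc (v : ℤ × ℤ → ℝ) (N : ℕ) :
    ∑ r ∈ range N, dir (adj (WS t₁ t₂)) (Pc t₁ t₂ r) v ≤
      2 * dir (adj (WS t₁ t₂)) (Bx t₁ t₂ N) v := by
  set c := adj (WS t₁ t₂) with hc
  have hc0 : ∀ z w, 0 ≤ c z w := adj_nonneg _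
  have h1 : ∀ r ∈ range N, dir c (Pc t₁ t₂ r) v ≤
      ∑ z ∈ Bx t₁ t₂ N, ∑ w ∈ Bx t₁ t₂ N,
        (if (r : ℤ) ≤ z.1 ∧ z.1 ≤ (r : ℤ) + 1 then c z w * (v z - v w) ^ 2 else 0) := by
    intro r hr
    rw [mem_range] at hr
    have e : Pc t₁ t₂ r = (Bx t₁ t₂ N).filter (fun z : ℤ × ℤ => (r : ℤ) ≤ z.1 ∧ z.1 ≤ (r : ℤ) + 1) := by
      ext z
      rw [mem_Pc, mem_filter, mem_Bx]
      constructor
      · rintro ⟨a, b, d⟩
        exact ⟨⟨a, by omega⟩, b, d⟩
      · rintro ⟨⟨a, _⟩, b, d⟩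
        exact ⟨a, b, d⟩
    unfold dir
    calc ∑ z ∈ Pc t₁ t₂ r, ∑ w ∈ Pc t₁ t₂ r, c z w * (v z - v w) ^ 2
        ≤ ∑ z ∈ Pc t₁ t₂ r, ∑ w ∈ Bx t₁ t₂ N, c z w * (v z - v w) ^ 2 := by
          refine sum_le_sum fun z _ => sum_le_sum_of_subset_of_nonneg ?_
            fun w _ _ => mul_nonneg (hc0 z w) (sq_nonneg _)
          rw [e]
          exact filter_subset _ _
      _ = _ := by
          rw [e, sum_filter]
          refine sum_congr rfl fun z _ => ?_
          split_ifs with h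
          · rfl
          · simp
  refine (sum_le_sum h1).trans ?_
  rw [sum_comm]
  unfold dir
  rw [mul_sum]
  refine sum_le_sum fun z _ => ?_
  rw [sum_comm, mul_sum]
  refine sum_le_sum fun w _ => ?_
  have hX : 0 ≤ c z w * (v z - v w) ^ 2 := mul_nonneg (hc0 z w) (sq_nonneg _)
  rw [← sum_filter, sum_const, nsmul_eq_mul]
  refine mul_le_mul_of_nonneg_right ?_ hX
  have h5 : ((range N).filter (fun r : ℕ => (r : ℤ) ≤ z.1 ∧ z.1 ≤ (r : ℤ) + 1)).card ≤ 2 := by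
    have hs : (range N).filter (fun r : ℕ => (r : ℤ) ≤ z.1 ∧ z.1 ≤ (r : ℤ) + 1) ⊆
        ({z.1.toNat, z.1.toNat - 1} : Finset ℕ) := by
      intro r hr
      rw [mem_filter] at hr
      rw [mem_insert, mem_singleton]
      omega
    exact (card_le_card hs).trans card_le_two
  exact_mod_cast h5

/-- arbitrarily far there are pairs of columns carrying little energy -/
theorem small_Pc (v : ℤ × ℤ → ℝ) (M : ℝ)
    (hM : ∀ F : Finset (ℤ × ℤ), dir (adj (WS t₁ t₂)) F v ≤ M) (ht : t₁ ≤ t₂)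
    (ε : ℝ) (hε : 0 < ε) (R : ℕ) :
    ∃ r, R ≤ r ∧ ((Pc t₁ t₂ r).card : ℝ) * dir (adj (WS t₁ t₂)) (Pc t₁ t₂ r) v < ε := by
  have hC : 0 < 2 * (t₂ - t₁ + 1) := by linarith
  obtain ⟨r, hr, hr2⟩ := small_col (fun r => dir (adj (WS t₁ t₂)) (Pc t₁ t₂ r) v) (2 * M)
    (fun r => dir_nonneg _ (adj_nonneg _) _ _)
    (fun N => (sum_Pc t₁ t₂ v N).trans (by have := hM (Bx t₁ t₂ N); linarith))
    (ε / (2 * (t₂ - t₁ + 1))) (by positivity) R
  refine ⟨r, hr, ?_⟩
  have h0 : 0 ≤ dir (adj (WS t₁ t₂)) (Pc t₁ t₂ r) v := dir_nonneg _ (adj_nonneg _) _ _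
  calc _ ≤ (2 * (t₂ - t₁ + 1) * ((r : ℝ) + 1)) * dir (adj (WS t₁ t₂)) (Pc t₁ t₂ r) v :=
        mul_le_mul_of_nonneg_right (Pc_card t₁ t₂ ht r) h0
    _ = 2 * (t₂ - t₁ + 1) * (dir (adj (WS t₁ t₂)) (Pc t₁ t₂ r) v * ((r : ℝ) + 1)) := by ring
    _ < 2 * (t₂ - t₁ + 1) * (ε / (2 * (t₂ - t₁ + 1))) := by
        apply mul_lt_mul_of_pos_left hr2 hC
    _ = ε := mul_div_cancel₀ _ hC.ne'

end Col

end Pool.Agent.H27R3.DLA
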