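import Mathlib
import Pool.Agent.H27R3.DLA.Harm

set_option autoImplicit false
open scoped Classical Topology
open Finset Filter

namespace Pool.Agent.H27R3.DLA

theorem reach_prop {V : Type*} (G : SimpleGraph V) (Q : V → Prop)
    (hQ : ∀ a b, G.Adj a b → Q a → Q b) {p q : V} (h : G.Reachable p q) (hp : Q p) : Q q := by
  obtain ⟨w⟩ := h
  induction w with
  | nil => exact hp
  | cons hab w ih => exact ih (hQ _ _ hab hp)

section Rec

variable (t₁ t₂ : ℝ) (ht₁ : t₁ ≤ 0) (ht₂ : 0 ≤ t₂)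

include ht₁ ht₂

theorem WS_axis (x : ℤ) (hx : 0 ≤ x) : (x, (0 : ℤ)) ∈ WS t₁ t₂ := by
  have : (0 : ℝ) ≤ x := by exact_mod_cast hx
  refine ⟨hx, ?_, ?_⟩
  · simp only [Int.cast_zero]
    exact mul_nonpos_of_nonpos_of_nonneg ht₁ this
  · simp only [Int.cast_zero]
    exact mul_nonneg ht₂ this

theorem col_conn (r : ℤ) (p q : ℤ × ℤ) (hp : p ∈ WS t₁ t₂) (hq : q ∈ WS t₁ t₂) (hpr : p.1 = r)
    (hqr : q.1 = r) : (Gr (fun z => z ∈ WS t₁ t₂ ∧ z.1 = r)).Reachable p q := by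
  have key : ∀ p ∈ WS t₁ t₂, p.1 = r →
      (Gr (fun z => z ∈ WS t₁ t₂ ∧ z.1 = r)).Reachable p (r, 0) := by
    rintro ⟨x, y⟩ hp hpr
    simp only at hpr
    subst hpr
    have hx : 0 ≤ x := hp.1
    have h0 := WS_axis t₁ t₂ ht₁ ht₂ x hx
    rcases le_total 0 y with h | h
    · refine (reach_v _ _ _ _ h fun u hu1 hu2 => ⟨⟨hx, ?_, ?_⟩, rfl⟩).symm
      · refine h0.2.1.trans ?_
        exact_mod_cast hu1
      · refine le_trans ?_ hp.2.2
        exact_mod_cast hu2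
    · refine reach_v _ _ _ _ h fun u hu1 hu2 => ⟨⟨hx, ?_, ?_⟩, rfl⟩
      · refine hp.2.1.trans ?_
        exact_mod_cast hu1
      · refine le_trans ?_ h0.2.2
        exact_mod_cast hu2
  exact (key p hp hpr).trans (key q hq hqr).symm

theorem WS_conn (p q : ℤ × ℤ) (hp : p ∈ WS t₁ t₂) (hq : q ∈ WS t₁ t₂) :
    (Gr (fun z => z ∈ WS t₁ t₂)).Reachable p q := by
  have key : ∀ p ∈ WS t₁ t₂, (Gr (fun z => z ∈ WS t₁ t₂)).Reachable p (0, 0) := by
    intro p hp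
    have h0 := WS_axis t₁ t₂ ht₁ ht₂ p.1 hp.1
    have h1 := col_conn t₁ t₂ ht₁ ht₂ p.1 p (p.1, 0) hp h0 rfl rfl
    have h2 : (Gr (fun z => z ∈ WS t₁ t₂)).Reachable p (p.1, 0) := by
      refine h1.mono ?_
      intro a b hab
      exact ⟨hab.1.1, hab.2.1.1, hab.2.2⟩
    refine h2.trans (reach_h _ _ _ _ hp.1 fun u hu1 _ => WS_axis t₁ t₂ ht₁ ht₂ u hu1).symm
  exact (key p hp).trans (key q hq).symm

/-- flux bound through a pair of columns -/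
theorem flux_bound (B : Finset (ℤ × ℤ)) (v : ℤ × ℤ → ℝ) (r : ℕ)
    (hB : ∀ b ∈ B, b ∈ WS t₁ t₂ ∧ b.1 ≤ r)
    (hharm : ∀ z, z ∉ B → ((nb (WS t₁ t₂) z).card : ℝ) * v z = ∑ w ∈ nb (WS t₁ t₂) z, v w) :
    (∑ z ∈ B, ∑ w ∈ nb (WS t₁ t₂) z, (v z - v w)) ^ 2 ≤
      ((Pc t₁ t₂ r).card : ℝ) * dir (adj (WS t₁ t₂)) (Pc t₁ t₂ r) v := by
  set c := adj (WS t₁ t₂) with hc
  set F := Bx t₁ t₂ ((r : ℤ) + 1) with hF
  set g : ℤ × ℤ → ℝ := fun z => if z.1 ≤ r then 1 else 0 with hg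
  have h1 := sum_by_parts c (adj_symm _) F v g
  have hnbF : ∀ z : ℤ × ℤ, z.1 ≤ r → ∀ w ∈ nb (WS t₁ t₂) z, w ∈ F := by
    intro z hz w hw
    rw [mem_nb, mem_nb4] at hw
    rw [hF, mem_Bx]
    exact ⟨hw.2, by omega⟩
  have h2 : ∑ z ∈ F, g z * ∑ w ∈ F, c z w * (v z - v w) =
      ∑ z ∈ B, ∑ w ∈ nb (WS t₁ t₂) z, (v z - v w) := by
    have hBF : B ⊆ F := by
      intro b hb
      rw [hF, mem_Bx]
      exact ⟨(hB b hb).1, by have := (hB b hb).2; omega⟩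
    rw [← sum_subset hBF]
    · refine sum_congr rfl fun z hz => ?_
      have e1 : g z = 1 := by rw [hg]; simp only; rw [if_pos (hB z hz).2]
      rw [e1, one_mul]
      exact sum_adj _ F z (hB z hz).1 (hnbF z (hB z hz).2) _
    · intro z hzF hzB
      by_cases hzr : z.1 ≤ r
      · rw [hF, mem_Bx] at hzF
        have e : ∑ w ∈ F, c z w * (v z - v w) = 0 := by
          rw [sum_adj _ F z hzF.1 (hnbF z hzr)]
          rw [sum_sub_distrib, sum_const, nsmul_eq_mul, hharm z hzB, sub_self]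
        rw [e, mul_zero]
      · have e1 : g z = 0 := by rw [hg]; simp only; rw [if_neg hzr]
        rw [e1, zero_mul]
  have hcg : ∀ z w, c z w ≠ 0 → g z ≠ g w → z ∈ Pc t₁ t₂ r ∧ w ∈ Pc t₁ t₂ r := by
    intro z w h3 h4
    rw [hc] at h3
    unfold adj at h3
    split_ifs at h3 with h5
    · have h6 := h5.2.2
      rw [mem_nb4] at h6
      rw [hg] at h4
      simp only at h4
      rw [mem_Pc, mem_Pc]
      refine ⟨⟨h5.1, ?_⟩, ⟨h5.2.1, ?_⟩⟩
      · by_cases a : z.1 ≤ r <;> by_cases b : w.1 ≤ r <;> simp [a, b] at h4 <;> omega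
      · by_cases a : z.1 ≤ r <;> by_cases b : w.1 ≤ r <;> simp [a, b] at h4 <;> omega
    · exact absurd rfl h3
  have h3 : ∑ z ∈ F, ∑ w ∈ F, c z w * (v z - v w) * (g z - g w) =
      ∑ x ∈ Pc t₁ t₂ r ×ˢ Pc t₁ t₂ r, c x.1 x.2 * (v x.1 - v x.2) * (g x.1 - g x.2) := by
    rw [← sum_product']
    symm
    apply sum_subset
    · intro x hx
      rw [mem_product, mem_Pc, mem_Pc] at hx
      rw [mem_product, hF, mem_Bx, mem_Bx]
      exact ⟨⟨hx.1.1, hx.1.2.2⟩, ⟨hx.2.1, hx.2.2.2⟩⟩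
    · intro x _ hx2
      by_cases a : c x.1 x.2 = 0
      · rw [a]; ring
      by_cases b : g x.1 = g x.2
      · rw [b]; ring
      exact absurd (mem_product.mpr (hcg _ _ a b)) hx2
  have h4 : (∑ x ∈ Pc t₁ t₂ r ×ˢ Pc t₁ t₂ r, c x.1 x.2 * (v x.1 - v x.2) * (g x.1 - g x.2)) ^ 2 ≤
      (∑ x ∈ Pc t₁ t₂ r ×ˢ Pc t₁ t₂ r, c x.1 x.2 * (v x.1 - v x.2) ^ 2) *
      (∑ x ∈ Pc t₁ t₂ r ×ˢ Pc t₁ t₂ r, c x.1 x.2 * (g x.1 - g x.2) ^ 2) := by
    have hcc : ∀ z w, c z w * c z w = c z w := by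
      intro z w
      rw [hc]
      unfold adj
      split_ifs <;> norm_num
    have := sum_mul_sq_le_sq_mul_sq (Pc t₁ t₂ r ×ˢ Pc t₁ t₂ r)
      (fun x => c x.1 x.2 * (v x.1 - v x.2)) (fun x => c x.1 x.2 * (g x.1 - g x.2))
    have e1 : ∀ x ∈ Pc t₁ t₂ r ×ˢ Pc t₁ t₂ r, c x.1 x.2 * (v x.1 - v x.2) * (g x.1 - g x.2) =
        (c x.1 x.2 * (v x.1 - v x.2)) * (c x.1 x.2 * (g x.1 - g x.2)) := by
      intro x _
      have := hcc x.1 x.2
      calc _ = c x.1 x.2 * ((v x.1 - v x.2) * (g x.1 - g x.2)) := by ring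
        _ = (c x.1 x.2 * c x.1 x.2) * ((v x.1 - v x.2) * (g x.1 - g x.2)) := by rw [this]
        _ = _ := by ring
    have e2 : ∀ f : ℤ × ℤ → ℝ, ∀ x ∈ Pc t₁ t₂ r ×ˢ Pc t₁ t₂ r,
        (c x.1 x.2 * (f x.1 - f x.2)) ^ 2 = c x.1 x.2 * (f x.1 - f x.2) ^ 2 := by
      intro f x _
      have := hcc x.1 x.2
      calc _ = (c x.1 x.2 * c x.1 x.2) * (f x.1 - f x.2) ^ 2 := by ring
        _ = _ := by rw [this]
    rw [sum_congr rfl e1]
    rw [sum_congr rfl (e2 v), sum_congr rfl (e2 g)] at this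
    exact this
  have h5 : ∑ x ∈ Pc t₁ t₂ r ×ˢ Pc t₁ t₂ r, c x.1 x.2 * (g x.1 - g x.2) ^ 2 ≤
      4 * ((Pc t₁ t₂ r).card : ℝ) := by
    have hgg : ∀ z w, (g z - g w) ^ 2 ≤ 1 := by
      intro z w
      rw [hg]
      simp only
      split_ifs <;> norm_num
    calc _ ≤ ∑ x ∈ Pc t₁ t₂ r ×ˢ Pc t₁ t₂ r, c x.1 x.2 := by
          refine sum_le_sum fun x _ => ?_
          have := hgg x.1 x.2
          have h0 : 0 ≤ c x.1 x.2 := adj_nonneg _ _ _
          nlinarith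
      _ = ∑ z ∈ Pc t₁ t₂ r, ∑ w ∈ Pc t₁ t₂ r, c z w := by rw [← sum_product']
      _ ≤ ∑ z ∈ Pc t₁ t₂ r, (4 : ℝ) := sum_le_sum fun z _ => sum_adj_le _ _ z
      _ = _ := by rw [sum_const, nsmul_eq_mul]; ring
  have h6 : ∑ x ∈ Pc t₁ t₂ r ×ˢ Pc t₁ t₂ r, c x.1 x.2 * (v x.1 - v x.2) ^ 2 =
      dir c (Pc t₁ t₂ r) v := by
    unfold dir
    rw [← sum_product']
  rw [h2, h3] at h1
  rw [← h1, h6] at h4
  have h7 : 0 ≤ dir c (Pc t₁ t₂ r) v := dir_nonneg _ (adj_nonneg _) _ _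
  have h8 := mul_le_mul_of_nonneg_left h5 h7
  nlinarith

/-- recurrence: simple random walk on the wedge hits every nonempty finite set -/
theorem recur (B : Finset (ℤ × ℤ)) (hB : ∀ b ∈ B, b ∈ WS t₁ t₂) (hne : B.Nonempty)
    (z : ℤ × ℤ) (hz : z ∈ WS t₁ t₂) : ∑ b ∈ B, hitP (WS t₁ t₂) B b z = 1 := by
  set h : ℤ × ℤ → ℝ := fun z => ∑ b ∈ B, hitP (WS t₁ t₂) B b z with hh
  have hle : ∀ z, h z ≤ 1 := fun z => sum_hitP_le_one _ B B z
  have hone : ∀ z ∈ B, h z = 1 := by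
    intro z hz
    rw [hh]
    simp only
    rw [sum_congr rfl fun b _ => hitP_mem (WS t₁ t₂) B b z hz, sum_ite_eq, if_pos hz]
  have hharm : ∀ z, z ∉ B →
      ((nb (WS t₁ t₂) z).card : ℝ) * h z = ∑ w ∈ nb (WS t₁ t₂) z, h w := by
    intro z hz
    rw [hh]
    simp only
    rw [mul_sum, sum_comm]
    exact sum_congr rfl fun b _ => hitP_harm _ B b z hz
  set κ := ∑ z ∈ B, ∑ w ∈ nb (WS t₁ t₂) z, (h z - h w) with hκ
  obtain ⟨R, hR⟩ : ∃ R : ℕ, ∀ b ∈ B, b.1 ≤ R := by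
    refine ⟨∑ b ∈ B, b.1.toNat, fun b hb => ?_⟩
    have h1 : b.1.toNat ≤ ∑ b ∈ B, b.1.toNat :=
      single_le_sum (f := fun b : ℤ × ℤ => b.1.toNat) (fun _ _ => Nat.zero_le _) hb
    omega
  have hκ0 : κ = 0 := by
    have hsq : κ ^ 2 ≤ 0 := by
      refine le_of_forall_pos_le_add fun ε hε => ?_
      obtain ⟨r, hr, hr2⟩ := small_Pc t₁ t₂ h (8 * (B.card : ℝ) ^ 2)
        (fun F => sum_energy _ B B F) (ht₁.trans ht₂) ε hε R
      have := flux_bound t₁ t₂ ht₁ ht₂ B h r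
        (fun b hb => ⟨hB b hb, (hR b hb).trans (by exact_mod_cast hr)⟩) hharm
      linarith
    nlinarith [sq_nonneg κ]
  have hnn : ∀ z ∈ B, 0 ≤ ∑ w ∈ nb (WS t₁ t₂) z, (h z - h w) := by
    intro z hz
    refine sum_nonneg fun w _ => ?_
    rw [hone z hz]
    linarith [hle w]
  have hzero := (sum_eq_zero_iff_of_nonneg hnn).mp hκ0
  obtain ⟨b, hb⟩ := hne
  refine reach_prop _ (fun z => h z = 1) ?_ (WS_conn t₁ t₂ ht₁ ht₂ b z (hB b hb) hz) (hone b hb)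
  intro p q hpq hp
  obtain ⟨hp1, hq1, hpq1⟩ := hpq
  have hqnb : q ∈ nb (WS t₁ t₂) p := (mem_nb _ _ _).mpr ⟨hpq1, hq1⟩
  by_cases hpB : p ∈ B
  · have h1 := (sum_eq_zero_iff_of_nonneg (fun w _ => by
      rw [hone p hpB]; linarith [hle w])).mp (hzero p hpB) q hqnb
    linarith
  · have h1 := hharm p hpB
    rw [hp, mul_one] at h1
    have h2 : ∑ w ∈ nb (WS t₁ t₂) p, (1 - h w) = 0 := by
      rw [sum_sub_distrib, sum_const, nsmul_eq_mul, mul_one, h1, sub_self]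
    have h3 := (sum_eq_zero_iff_of_nonneg (fun w _ => by linarith [hle w])).mp h2 q hqnb
    linarith

/-- maximum principle beyond a column -/
theorem max_col (B S : Finset (ℤ × ℤ)) (r : ℤ) (hr0 : 0 ≤ r) (hr : ∀ b ∈ B, b.1 < r) (M : ℝ)
    (hM : ∀ z ∈ WS t₁ t₂, z.1 = r → ∑ b ∈ S, hitP (WS t₁ t₂) B b z ≤ M)
    (z : ℤ × ℤ) (hz : z ∈ WS t₁ t₂) (hzr : r ≤ z.1) :
    ∑ b ∈ S, hitP (WS t₁ t₂) B b z ≤ M := by
  have hM0 : 0 ≤ M :=
    (sum_nonneg fun b _ => hitP_nonneg _ B b _).trans (hM (r, 0) (WS_axis t₁ t₂ ht₁ ht₂ r hr0) rfl)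
  have key : ∀ k : ℕ, ∀ z ∈ WS t₁ t₂, r ≤ z.1 → ∑ b ∈ S, hit (WS t₁ t₂) B b k z ≤ M := by
    intro k
    induction k with
    | zero =>
      intro z hz hzr
      rcases hzr.lt_or_eq with h | h
      · have hzB : z ∉ B := fun hb => by have := hr z hb; omega
        simp only [hit, hzB, false_and, if_false, sum_const_zero]
        exact hM0
      · exact (sum_le_sum fun b _ => hit_le_hitP _ B b 0 z).trans (hM z hz h.symm)
    | succ k ih =>
      intro z hz hzr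
      rcases hzr.lt_or_eq with h | h
      · have hzB : z ∉ B := fun hb => by have := hr z hb; omega
        simp only [hit, hzB, if_false]
        rw [← sum_div, sum_comm]
        rcases Nat.eq_zero_or_pos (nb (WS t₁ t₂) z).card with hc | hc
        · rw [card_eq_zero.mp hc]
          simpa using hM0
        · rw [div_le_iff₀ (by exact_mod_cast hc)]
          have : ∑ w ∈ nb (WS t₁ t₂) z, ∑ b ∈ S, hit (WS t₁ t₂) B b k w ≤
              ∑ w ∈ nb (WS t₁ t₂) z, M := by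
            refine sum_le_sum fun w hw => ?_
            rw [mem_nb, mem_nb4] at hw
            exact ih w hw.2 (by omega)
          rw [sum_const, nsmul_eq_mul] at this
          linarith
      · exact (sum_le_sum fun b _ => hit_le_hitP _ B b _ z).trans (hM z hz h.symm)
  exact le_of_tendsto' (tendsto_finsetSum _ fun b _ => tendsto_hit _ B b z)
    fun k => key k z hz hzr

/-- the harmonic measure from infinity exists -/
theorem exists_harm (B : Finset (ℤ × ℤ)) (hB : ∀ b ∈ B, b ∈ WS t₁ t₂) (hne : B.Nonempty)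
    (y : ℤ × ℤ) (hy : y ∈ B) : ∃ H, IsHarm (WS t₁ t₂) B y H := by
  set u : ℤ × ℤ → ℝ := hitP (WS t₁ t₂) B y with hu
  obtain ⟨R, hR⟩ : ∃ R : ℕ, ∀ b ∈ B, b.1 < R := by
    refine ⟨∑ b ∈ B, b.1.toNat + 1, fun b hb => ?_⟩
    have h1 : b.1.toNat ≤ ∑ b ∈ B, b.1.toNat :=
      single_le_sum (f := fun b : ℤ × ℤ => b.1.toNat) (fun _ _ => Nat.zero_le _) hb
    rw [Nat.cast_succ]
    omega
  -- oscillation beyond a column
  have hosc : ∀ ε > 0, ∃ r : ℕ, ∃ c : ℝ, ∀ z ∈ WS t₁ t₂, (r : ℤ) ≤ z.1 → |u z - c| ≤ ε := by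
    intro ε hε
    obtain ⟨r, hr, hr2⟩ := small_Pc t₁ t₂ u 8 (fun F => hitP_energy _ B y F) (ht₁.trans ht₂)
      (ε ^ 2) (by positivity) R
    have hcol : ∀ z ∈ WS t₁ t₂, z.1 = r → |u z - u (r, 0)| ≤ ε := by
      intro z hz hzr
      have h0 := WS_axis t₁ t₂ ht₁ ht₂ (r : ℤ) (by positivity)
      have hc := col_conn t₁ t₂ ht₁ ht₂ (r : ℤ) z (r, 0) hz h0 hzr rfl
      have h1 := path_poincare (Gr (fun z => z ∈ WS t₁ t₂ ∧ z.1 = r)) (Pc t₁ t₂ r)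
        (adj (WS t₁ t₂)) u (adj_nonneg _) (by
          intro a b hab
          obtain ⟨h1, h2, h3⟩ := hab
          rw [mem_Pc, mem_Pc]
          refine ⟨⟨h1.1, by omega, by omega⟩, ⟨h2.1, by omega, by omega⟩, ?_⟩
          unfold adj
          rw [if_pos ⟨h1.1, h2.1, h3⟩]) (by rw [mem_Pc]; exact ⟨hz, by omega, by omega⟩) hc
      have h2 : (u z - u (r, 0)) ^ 2 ≤ ε ^ 2 := h1.trans hr2.le
      exact abs_le_of_sq_le_sq h2 hε.le
    refine ⟨r, u (r, 0), fun z hz hzr => ?_⟩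
    have hrB : ∀ b ∈ B, b.1 < (r : ℤ) := fun b hb => (hR b hb).trans_le (by exact_mod_cast hr)
    rw [abs_le]
    constructor
    · have h1 := max_col t₁ t₂ ht₁ ht₂ B (B.erase y) r (by positivity) hrB (1 - (u (r, 0) - ε)) (by
        intro w hw hwr
        have h2 := recur t₁ t₂ ht₁ ht₂ B hB hne w hw
        rw [← add_sum_erase B _ hy] at h2
        have h3 := abs_le.mp (hcol w hw hwr)
        have h4 : hitP (WS t₁ t₂) B y w = u w := rfl
        linarith [h3.1]) z hz hzr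
      have h2 := recur t₁ t₂ ht₁ ht₂ B hB hne z hz
      rw [← add_sum_erase B _ hy] at h2
      have h4 : hitP (WS t₁ t₂) B y z = u z := rfl
      linarith
    · have h1 := max_col t₁ t₂ ht₁ ht₂ B {y} r (by positivity) hrB (u (r, 0) + ε) (by
        intro w hw hwr
        rw [sum_singleton]
        have h3 := abs_le.mp (hcol w hw hwr)
        have h4 : hitP (WS t₁ t₂) B y w = u w := rfl
        linarith [h3.2]) z hz hzr
      rw [sum_singleton] at h1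
      have h4 : hitP (WS t₁ t₂) B y z = u z := rfl
      linarith
  -- Cauchy
  have : Infinite (WS t₁ t₂) := (WS_infinite t₁ t₂ ht₁ ht₂).to_subtype
  have hcau : Cauchy (map (fun x : WS t₁ t₂ => u x) cofinite) := by
    rw [Metric.cauchy_iff]
    refine ⟨inferInstance, fun ε hε => ?_⟩
    obtain ⟨r, c, hrc⟩ := hosc (ε / 3) (by positivity)
    refine ⟨Metric.closedBall c (ε / 3), ?_, ?_⟩
    · have hfin : {x : WS t₁ t₂ | ¬ ((r : ℤ) ≤ (x : ℤ × ℤ).1)}.Finite := by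
        refine Set.Finite.subset ((WS_fin t₁ t₂ r).preimage
          (Set.injOn_of_injective Subtype.val_injective)) ?_
        intro x hx
        simp only [Set.mem_ofPred_eq, not_le] at hx
        exact ⟨x.2, hx.le⟩
      have hev : ∀ᶠ x : WS t₁ t₂ in cofinite, (r : ℤ) ≤ (x : ℤ × ℤ).1 := hfin
      rw [Filter.mem_map]
      filter_upwards [hev] with x hx
      rw [Set.mem_preimage, Metric.mem_closedBall, Real.dist_eq]
      exact hrc x x.2 hx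
    · intro a ha b hb
      rw [Metric.mem_closedBall] at ha hb
      calc dist a b ≤ dist a c + dist b c := dist_triangle_right _ _ _
        _ ≤ ε / 3 + ε / 3 := add_le_add ha hb
        _ < ε := by linarith
  obtain ⟨H, hH⟩ := CompleteSpace.complete hcau
  exact ⟨H, hH⟩

/-- the harmonic measure from infinity -/
noncomputable def Hm (B : Finset (ℤ × ℤ)) (y : ℤ × ℤ) : ℝ :=
  if h : ∃ H, IsHarm (WS t₁ t₂) B y H then h.choose else 0

theorem Hm_spec (B : Finset (ℤ × ℤ)) (hB : ∀ b ∈ B, b ∈ WS t₁ t₂) (hne : B.Nonempty)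
    (y : ℤ × ℤ) (hy : y ∈ B) : IsHarm (WS t₁ t₂) B y (Hm t₁ t₂ B y) := by
  unfold Hm
  rw [dif_pos (exists_harm t₁ t₂ ht₁ ht₂ B hB hne y hy)]
  exact (exists_harm t₁ t₂ ht₁ ht₂ B hB hne y hy).choose_spec

theorem Hm_nonneg (B : Finset (ℤ × ℤ)) (hB : ∀ b ∈ B, b ∈ WS t₁ t₂) (hne : B.Nonempty)
    (y : ℤ × ℤ) (hy : y ∈ B) : 0 ≤ Hm t₁ t₂ B y := by
  have : Infinite (WS t₁ t₂) := (WS_infinite t₁ t₂ ht₁ ht₂).to_subtype
  exact ge_of_tendsto (Hm_spec t₁ t₂ ht₁ ht₂ B hB hne y hy)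
    (Eventually.of_forall fun x => hitP_nonneg _ B y x)

theorem Hm_sum (B : Finset (ℤ × ℤ)) (hB : ∀ b ∈ B, b ∈ WS t₁ t₂) (hne : B.Nonempty) :
    ∑ y ∈ B, Hm t₁ t₂ B y = 1 := by
  have : Infinite (WS t₁ t₂) := (WS_infinite t₁ t₂ ht₁ ht₂).to_subtype
  have h1 : Tendsto (fun x : WS t₁ t₂ => ∑ y ∈ B, hitP (WS t₁ t₂) B y x) cofinite
      (𝓝 (∑ y ∈ B, Hm t₁ t₂ B y)) :=
    tendsto_finsetSum _ fun y hy => Hm_spec t₁ t₂ ht₁ ht₂ B hB hne y hy
  have h2 : Tendsto (fun x : WS t₁ t₂ => ∑ y ∈ B, hitP (WS t₁ t₂) B y x) cofinite (𝓝 1) := by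
    refine tendsto_const_nhds.congr fun x => ?_
    exact (recur t₁ t₂ ht₁ ht₂ B hB hne x x.2).symm
  exact tendsto_nhds_unique h1 h2

omit ht₁ ht₂ in
theorem bdry_sub (A : Finset (ℤ × ℤ)) : ∀ b ∈ bdry (WS t₁ t₂) A, b ∈ WS t₁ t₂ := by
  intro b hb
  unfold bdry at hb
  rw [Finset.mem_sdiff, mem_biUnion] at hb
  obtain ⟨⟨w, _, hw⟩, _⟩ := hb
  exact ((mem_nb _ w _).mp hw).2

theorem bdry_nonempty (A : Finset (ℤ × ℤ)) (h0 : (0, 0) ∈ A) : (bdry (WS t₁ t₂) A).Nonempty := by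
  by_contra hcon
  rw [not_nonempty_iff_eq_empty] at hcon
  have key : ∀ n : ℕ, ((n : ℤ), (0 : ℤ)) ∈ A := by
    intro n
    induction n with
    | zero => simpa using h0
    | succ n ih =>
      by_contra hn
      have : (((n + 1 : ℕ) : ℤ), (0 : ℤ)) ∈ bdry (WS t₁ t₂) A := by
        unfold bdry
        rw [Finset.mem_sdiff, mem_biUnion]
        refine ⟨⟨_, ih, ?_⟩, hn⟩
        rw [mem_nb, mem_nb4]
        refine ⟨Or.inl ⟨by push_cast; rfl, rfl⟩, WS_axis t₁ t₂ ht₁ ht₂ _ (by positivity)⟩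
      rw [hcon] at this
      simp at this
  have hinf : (A : Set (ℤ × ℤ)).Infinite := by
    refine Set.infinite_of_injective_forall_mem (f := fun n : ℕ => ((n : ℤ), (0 : ℤ))) ?_ key
    intro a b hab
    simpa using hab
  exact hinf A.finite_toSet

end Rec

end Pool.Agent.H27R3.DLA
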