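import Mathlib
import Pool.Agent.H27R3.DLA.Process

set_option autoImplicit false
open scoped Classical ENNReal
open Finset MeasureTheory Filter

namespace Pool.Agent.H27R3.DLA

section Numeric

/-- decay exponent -/
noncomputable def lam : ℝ := Real.log (1025 / 1024) / Real.log 2

theorem lam_gt : 1 / 999 < lam := by
  unfold lam
  have h1 : (1 : ℝ) - (1025 / 1024)⁻¹ ≤ Real.log (1025 / 1024) :=
    Real.one_sub_inv_le_log_of_pos (by norm_num)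
  have h2 := Real.log_two_lt_d9
  have h3 : 0 < Real.log 2 := Real.log_pos (by norm_num)
  rw [lt_div_iff₀ h3]
  norm_num at h1
  linarith

theorem kappa_pow (ρ j : ℕ) (hρ : 1 ≤ ρ) (h : ρ < 2 ^ (j + 3)) :
    (1024 / 1025 : ℝ) ^ j ≤ (1025 / 1024) ^ 3 * (ρ : ℝ) ^ (-lam) := by
  have hρ0 : (0 : ℝ) < ρ := by exact_mod_cast hρ
  have h3 : 0 < Real.log 2 := Real.log_pos (by norm_num)
  have hl : 0 < Real.log (1025 / 1024) := Real.log_pos (by norm_num)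
  have h1 : Real.log ρ ≤ (j + 3) * Real.log 2 := by
    have : (ρ : ℝ) ≤ 2 ^ (j + 3) := by exact_mod_cast h.le
    have := Real.log_le_log hρ0 this
    rw [Real.log_pow] at this
    push_cast at this
    exact this
  have h2 : (1024 / 1025 : ℝ) ^ (j + 3) ≤ (ρ : ℝ) ^ (-lam) := by
    rw [Real.rpow_def_of_pos hρ0, ← Real.exp_log (show (0 : ℝ) < 1024 / 1025 by norm_num),
      ← Real.exp_nat_mul]
    apply Real.exp_le_exp.mpr
    have e1 : Real.log (1024 / 1025) = - Real.log (1025 / 1024) := by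
      rw [← Real.log_inv]
      norm_num
    rw [e1]
    unfold lam
    have h4 : Real.log ρ * (Real.log (1025 / 1024) / Real.log 2) ≤
        ((j + 3) * Real.log 2) * (Real.log (1025 / 1024) / Real.log 2) :=
      mul_le_mul_of_nonneg_right h1 (by positivity)
    have h5 : ((j + 3) * Real.log 2) * (Real.log (1025 / 1024) / Real.log 2) =
        (j + 3) * Real.log (1025 / 1024) := by field_simp
    rw [h5] at h4
    push_cast
    linarith
  have h6 : (1024 / 1025 : ℝ) ^ j = (1025 / 1024) ^ 3 * (1024 / 1025 : ℝ) ^ (j + 3) := by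
    rw [pow_add]
    norm_num
    ring
  rw [h6]
  apply mul_le_mul_of_nonneg_left h2
  norm_num

theorem choose_bound (M N : ℕ) (hM : 1 ≤ M) (η : ℝ) (hN : (N : ℝ) ≤ (M : ℝ) ^ (1 + η)) :
    (N.choose M : ℝ) ≤ (Real.exp 1 * (M : ℝ) ^ η) ^ M := by
  have hM0 : (0 : ℝ) < M := by exact_mod_cast hM
  have h1 : (N.choose M : ℝ) ≤ (N : ℝ) ^ M / (M.factorial : ℝ) := by
    exact_mod_cast Nat.choose_le_pow_div M N
  have h2 := Real.pow_div_factorial_le_exp (M : ℝ) hM0.le M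
  calc (N.choose M : ℝ) ≤ (N : ℝ) ^ M / (M.factorial : ℝ) := h1
    _ ≤ ((M : ℝ) ^ (1 + η)) ^ M / (M.factorial : ℝ) := by
        apply div_le_div_of_nonneg_right _ (by positivity)
        exact pow_le_pow_left₀ (by positivity) hN M
    _ = ((M : ℝ) ^ η) ^ M * ((M : ℝ) ^ M / (M.factorial : ℝ)) := by
        rw [Real.rpow_add hM0, Real.rpow_one, mul_pow]
        ring
    _ ≤ ((M : ℝ) ^ η) ^ M * Real.exp M := by
        apply mul_le_mul_of_nonneg_left h2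
        positivity
    _ = _ := by
        rw [mul_pow, ← Real.exp_nat_mul, mul_one]
        ring

end Numeric

section AE

variable {Ω : Type*} [MeasurableSpace Ω] (P : Measure Ω) [IsProbabilityMeasure P]
  (a : ℕ → Ω → ℤ × ℤ)

/-- scale parameter -/
noncomputable def rho (t₁ t₂ : ℝ) (M : ℕ) : ℕ := ⌊(t₂ - t₁) / (2 + (t₂ - t₁)) * M⌋₊

theorem rho_le (t₁ t₂ : ℝ) (h : t₁ < t₂) (M : ℕ) :
    (rho t₁ t₂ M : ℝ) * (2 + (t₂ - t₁)) ≤ (t₂ - t₁) * M := by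
  have h1 : (0 : ℝ) < 2 + (t₂ - t₁) := by linarith
  have h2 : (0 : ℝ) ≤ (t₂ - t₁) / (2 + (t₂ - t₁)) * M := by
    apply mul_nonneg (div_nonneg (by linarith) h1.le) (by positivity)
  have := Nat.floor_le h2
  calc _ ≤ ((t₂ - t₁) / (2 + (t₂ - t₁)) * M) * (2 + (t₂ - t₁)) :=
        mul_le_mul_of_nonneg_right this h1.le
    _ = _ := by field_simp

theorem rho_le_M (t₁ t₂ : ℝ) (h : t₁ < t₂) (M : ℕ) : rho t₁ t₂ M ≤ M := by
  have h1 : (0 : ℝ) < 2 + (t₂ - t₁) := by linarith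
  unfold rho
  apply Nat.floor_le_of_le
  have : (t₂ - t₁) / (2 + (t₂ - t₁)) ≤ 1 := by
    rw [div_le_one h1]
    linarith
  calc _ ≤ 1 * (M : ℝ) := mul_le_mul_of_nonneg_right this (by positivity)
    _ = _ := one_mul _

/-- the attachment bound at scale `M` -/
noncomputable def qM (t₁ t₂ : ℝ) (M : ℕ) : ℝ :=
  Real.sqrt (128 * (1024 / 1025 : ℝ) ^ (Nat.log 2 (rho t₁ t₂ M) - 2))

theorem qM_bound (t₁ t₂ : ℝ) (h : t₁ < t₂) : ∃ C : ℝ, 0 < C ∧ ∀ᶠ M : ℕ in atTop,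
    4 ≤ rho t₁ t₂ M ∧ qM t₁ t₂ M ≤ C * (M : ℝ) ^ (-(lam / 2)) := by
  set τ : ℝ := (t₂ - t₁) / (2 + (t₂ - t₁)) with hτ
  have hτ0 : 0 < τ := div_pos (by linarith) (by linarith)
  refine ⟨Real.sqrt (128 * ((1025 / 1024) ^ 3 * (τ / 2) ^ (-lam))),
    Real.sqrt_pos.mpr (by positivity), ?_⟩
  have ev1 : ∀ᶠ M : ℕ in atTop, 8 / τ + 2 / τ ≤ (M : ℝ) :=
    tendsto_natCast_atTop_atTop.eventually (eventually_ge_atTop _)
  filter_upwards [ev1, eventually_ge_atTop 1] with M hM hM1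
  have hM0 : (0 : ℝ) < M := by exact_mod_cast hM1
  have hτM : 10 ≤ τ * M := by
    have : 10 / τ ≤ M := by
      have : 8 / τ + 2 / τ = 10 / τ := by ring
      linarith
    rw [div_le_iff₀ hτ0] at this
    linarith
  have hfl : τ * M - 1 < rho t₁ t₂ M := Nat.sub_one_lt_floor _
  have hρ4 : (4 : ℝ) ≤ rho t₁ t₂ M := by linarith
  have hρ4' : 4 ≤ rho t₁ t₂ M := by exact_mod_cast hρ4
  refine ⟨hρ4', ?_⟩
  have hρh : τ / 2 * M ≤ rho t₁ t₂ M := by linarith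
  have hlog : 2 ≤ Nat.log 2 (rho t₁ t₂ M) := by
    have := Nat.log_mono_right (b := 2) hρ4'
    have h4 : Nat.log 2 4 = 2 := by
      rw [show 4 = 2 ^ 2 by norm_num, Nat.log_pow (by norm_num)]
    omega
  have h1 := kappa_pow (rho t₁ t₂ M) (Nat.log 2 (rho t₁ t₂ M) - 2) (by omega) (by
    have := Nat.lt_pow_succ_log_self (b := 2) (by norm_num) (rho t₁ t₂ M)
    have e : Nat.log 2 (rho t₁ t₂ M) - 2 + 3 = Nat.log 2 (rho t₁ t₂ M) + 1 := by omega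
    rw [e]
    exact this)
  have hlam : 0 < lam := lt_trans (by norm_num) lam_gt
  have h2 : (rho t₁ t₂ M : ℝ) ^ (-lam) ≤ (τ / 2) ^ (-lam) * (M : ℝ) ^ (-lam) := by
    rw [← Real.mul_rpow (by positivity) hM0.le]
    exact Real.rpow_le_rpow_of_nonpos (by positivity) hρh (by linarith)
  unfold qM
  have h3 : (M : ℝ) ^ (-(lam / 2)) = Real.sqrt ((M : ℝ) ^ (-lam)) := by
    rw [Real.sqrt_eq_rpow, ← Real.rpow_mul hM0.le]
    ring_nf
  rw [h3, ← Real.sqrt_mul (by positivity)]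
  apply Real.sqrt_le_sqrt
  calc _ ≤ 128 * ((1025 / 1024) ^ 3 * (rho t₁ t₂ M : ℝ) ^ (-lam)) :=
        mul_le_mul_of_nonneg_left h1 (by norm_num)
    _ ≤ 128 * ((1025 / 1024) ^ 3 * ((τ / 2) ^ (-lam) * (M : ℝ) ^ (-lam))) := by gcongr
    _ = _ := by ring

/-- exponent -/
noncomputable def eta : ℝ := 1 / 1999

theorem prob_small (t₁ t₂ : ℝ) (ht₁ : t₁ ≤ 0) (ht₂ : 0 ≤ t₂) (h : t₁ < t₂)
    (hD : IsDLA (WS t₁ t₂) P a) : ∀ᶠ M : ℕ in atTop,
    P {ω | ∃ p ∈ cl (fun i => a i ω) ⌊(M : ℝ) ^ (1 + eta)⌋₊, (2 * M : ℤ) ≤ p.1} ≤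
      ENNReal.ofReal (4 * Real.exp 1 * (1 / 2) ^ M) := by
  obtain ⟨C, hC0, hC⟩ := qM_bound t₁ t₂ h
  have hlam : 1 / 999 < lam := lam_gt
  have hη : 0 < eta := by unfold eta; norm_num
  have hη2 : eta < lam / 2 := by
    unfold eta
    linarith
  have hlim : Tendsto (fun M : ℕ => 4 * Real.exp 1 * C * (M : ℝ) ^ (eta - lam / 2)) atTop
      (nhds 0) := by
    have h1 : Tendsto (fun M : ℕ => (M : ℝ) ^ (-(lam / 2 - eta))) atTop (nhds 0) :=
      (tendsto_rpow_neg_atTop (by linarith)).comp tendsto_natCast_atTop_atTop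
    have h2 := h1.const_mul (4 * Real.exp 1 * C)
    rw [mul_zero] at h2
    refine h2.congr fun M => ?_
    rw [neg_sub]
  have hev := hlim.eventually (ge_mem_nhds (show (0 : ℝ) < 1 / 4 by norm_num))
  filter_upwards [hC, hev, eventually_ge_atTop 1] with M hM1 hM2 hM3
  obtain ⟨L, rfl⟩ : ∃ L, M = L + 1 := ⟨M - 1, by omega⟩
  set M := L + 1 with hMdef
  have hM0 : (0 : ℝ) < M := by exact_mod_cast hM3
  set N := ⌊(M : ℝ) ^ (1 + eta)⌋₊ with hN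
  have hNle : (N : ℝ) ≤ (M : ℝ) ^ (1 + eta) := Nat.floor_le (by positivity)
  have hρ4 := hM1.1
  have hlog : 2 ≤ Nat.log 2 (rho t₁ t₂ M) := by
    have := Nat.log_mono_right (b := 2) hρ4
    have h4 : Nat.log 2 4 = 2 := by
      rw [show 4 = 2 ^ 2 by norm_num, Nat.log_pow (by norm_num)]
    omega
  have hj : 2 * (2 ^ (Nat.log 2 (rho t₁ t₂ M) - 2 + 1) - 1) ≤ rho t₁ t₂ M := by
    have h5 : 2 ^ Nat.log 2 (rho t₁ t₂ M) ≤ rho t₁ t₂ M := Nat.pow_log_le_self 2 (by omega)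
    have h6 : Nat.log 2 (rho t₁ t₂ M) = (Nat.log 2 (rho t₁ t₂ M) - 2 + 1) + 1 := by omega
    rw [h6, pow_succ] at h5
    omega
  have hk := kesten P a (WS t₁ t₂) hD.meas hD.mem L (ENNReal.ofReal (qM t₁ t₂ M)) (by
    intro n y hy h'
    exact attach_bound P a t₁ t₂ ht₁ ht₂ hD M (rho t₁ t₂ M) _ (rho_le t₁ t₂ h M)
      (rho_le_M t₁ t₂ h M) hj n y hy h') N
  have e1 : {ω | ∃ p ∈ cl (fun i => a i ω) N, (2 * (M : ℕ) : ℤ) ≤ p.1} =
      {ω | ∃ p ∈ cl (fun i => a i ω) N, (2 * (L + 1 : ℕ) : ℤ) ≤ p.1} := rfl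
  rw [e1]
  refine hk.trans ?_
  have hq0 : 0 ≤ qM t₁ t₂ M := Real.sqrt_nonneg _
  have e2 : (N.choose (L + 1) : ℝ≥0∞) * (4 * ENNReal.ofReal (qM t₁ t₂ M)) ^ L =
      ENNReal.ofReal ((N.choose (L + 1) : ℝ) * (4 * qM t₁ t₂ M) ^ L) := by
    rw [ENNReal.ofReal_mul (by positivity), ENNReal.ofReal_natCast,
      ENNReal.ofReal_pow (by positivity), ENNReal.ofReal_mul (by norm_num)]
    norm_num
  rw [e2]
  apply ENNReal.ofReal_le_ofReal
  have h7 := choose_bound M N hM3 eta hNle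
  have hMη : (M : ℝ) ^ eta ≤ M := by
    calc (M : ℝ) ^ eta ≤ (M : ℝ) ^ (1 : ℝ) :=
          Real.rpow_le_rpow_of_exponent_le (by exact_mod_cast hM3) (by unfold eta; norm_num)
      _ = M := Real.rpow_one _
  have h2M : (M : ℝ) ≤ 2 ^ M := by exact_mod_cast (Nat.lt_two_pow_self).le
  calc (N.choose (L + 1) : ℝ) * (4 * qM t₁ t₂ M) ^ L
      ≤ (Real.exp 1 * (M : ℝ) ^ eta) ^ M * (4 * (C * (M : ℝ) ^ (-(lam / 2)))) ^ L := by
        gcongr
        exact hM1.2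
    _ = (Real.exp 1 * (M : ℝ) ^ eta) * (4 * Real.exp 1 * C * (M : ℝ) ^ (eta - lam / 2)) ^ L := by
        have e3 : (M : ℝ) ^ (eta - lam / 2) = (M : ℝ) ^ eta * (M : ℝ) ^ (-(lam / 2)) := by
          rw [← Real.rpow_add hM0]
          ring_nf
        rw [e3, hMdef, pow_succ]
        rw [mul_comm ((Real.exp 1 * ((L + 1 : ℕ) : ℝ) ^ eta) ^ L), mul_assoc, ← mul_pow]
        ring
    _ ≤ (Real.exp 1 * (M : ℝ)) * (1 / 4) ^ L := by
        gcongr
    _ = 4 * Real.exp 1 * M * (1 / 4) ^ M := by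
        rw [hMdef, pow_succ]
        push_cast
        ring
    _ ≤ 4 * Real.exp 1 * 2 ^ M * (1 / 4) ^ M := by gcongr
    _ = 4 * Real.exp 1 * (1 / 2) ^ M := by
        rw [mul_assoc, ← mul_pow]
        norm_num

theorem ae_radius (t₁ t₂ : ℝ) (ht₁ : t₁ ≤ 0) (ht₂ : 0 ≤ t₂) (h : t₁ < t₂)
    (hD : IsDLA (WS t₁ t₂) P a) : ∀ᵐ ω ∂P, ∀ᶠ M : ℕ in atTop,
    ∀ p ∈ cl (fun i => a i ω) ⌊(M : ℝ) ^ (1 + eta)⌋₊, p.1 < (2 * M : ℤ) := by
  obtain ⟨M0, hM0⟩ := eventually_atTop.mp (prob_small P a t₁ t₂ ht₁ ht₂ h hD)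
  have hsum : ∑' M : ℕ, P {ω | ∃ p ∈ cl (fun i => a i ω) ⌊((M + M0 : ℕ) : ℝ) ^ (1 + eta)⌋₊,
      (2 * (M + M0 : ℕ) : ℤ) ≤ p.1} ≠ ⊤ := by
    refine ne_top_of_le_ne_top ?_ (ENNReal.tsum_le_tsum fun M => hM0 (M + M0) (by omega))
    refine Summable.tsum_ofReal_ne_top ?_
    have h1 : Summable (fun M : ℕ => (1 / 2 : ℝ) ^ M) :=
      summable_geometric_of_lt_one (by norm_num) (by norm_num)
    have h2 := (h1.mul_left (4 * Real.exp 1 * (1 / 2) ^ M0))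
    refine h2.congr fun M => ?_
    rw [pow_add]
    ring
  filter_upwards [ae_eventually_notMem hsum] with ω hω
  obtain ⟨K, hK⟩ := eventually_atTop.mp hω
  filter_upwards [eventually_ge_atTop (K + M0)] with M hM p hp
  have h1 := hK (M - M0) (by omega)
  have e : M - M0 + M0 = M := by omega
  rw [e] at h1
  by_contra hcon
  exact h1 ⟨p, hp, not_lt.mp hcon⟩

end AE

section Det

theorem WS_bound (t₁ t₂ : ℝ) (ht₁ : t₁ ≤ 0) (ht₂ : 0 ≤ t₂) (z : ℤ × ℤ) (hz : z ∈ WS t₁ t₂) :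
    ‖(⟨(z.1 : ℝ), (z.2 : ℝ)⟩ : ℂ)‖ ≤ (1 + (t₂ - t₁)) * z.1 := by
  refine (Complex.norm_le_abs_re_add_abs_im _).trans ?_
  simp only
  have h1 : (0 : ℝ) ≤ z.1 := by exact_mod_cast hz.1
  rw [abs_of_nonneg h1]
  have h2 : |(z.2 : ℝ)| ≤ (t₂ - t₁) * z.1 := by
    rw [abs_le]
    have := hz.2.1
    have := hz.2.2
    constructor <;> nlinarith
  linarith

theorem gr_le (t₁ t₂ : ℝ) (ht₁ : t₁ ≤ 0) (ht₂ : 0 ≤ t₂) (x : ℕ → ℤ × ℤ)
    (hx : ∀ i, x i ∈ bdry (WS t₁ t₂) (cl x i))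
    (hr : ∀ᶠ M : ℕ in atTop, ∀ p ∈ cl x ⌊(M : ℝ) ^ (1 + eta)⌋₊, p.1 < (2 * M : ℤ)) :
    gr x ≤ 1999 / 2000 := by
  unfold gr
  refine Real.sSup_le ?_ (by norm_num)
  rintro β ⟨hβ, hlim⟩
  by_contra hcon
  push Not at hcon
  set c : ℝ := 1999 / 2000 with hc
  have hcη : c * (1 + eta) = 1 := by
    rw [hc]; unfold eta; norm_num
  set D : ℝ := 4 * (1 + (t₂ - t₁)) with hD
  have hD0 : 0 ≤ D := by rw [hD]; nlinarith
  have hW0 : ((0 : ℤ), (0 : ℤ)) ∈ WS t₁ t₂ := by simp [WS]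
  -- diameter bound
  have hdiam : ∀ᶠ n : ℕ in atTop, diam (cl x n) ≤ D * ((n : ℝ) ^ c + 1) := by
    obtain ⟨M0, hM0⟩ := eventually_atTop.mp hr
    have ev : ∀ᶠ n : ℕ in atTop, (M0 : ℝ) ≤ (n : ℝ) ^ c :=
      ((tendsto_rpow_atTop (by rw [hc]; norm_num : (0 : ℝ) < c)).comp
        tendsto_natCast_atTop_atTop).eventually (eventually_ge_atTop _)
    filter_upwards [ev, eventually_ge_atTop 1] with n hn hn1
    have hn0 : (0 : ℝ) < n := by exact_mod_cast hn1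
    set M := ⌈(n : ℝ) ^ c⌉₊ with hM
    have hM1 : (n : ℝ) ^ c ≤ M := Nat.le_ceil _
    have hM2 : (M : ℝ) < (n : ℝ) ^ c + 1 := Nat.ceil_lt_add_one (by positivity)
    have hM3 : M0 ≤ M := by exact_mod_cast hn.trans hM1
    have hnN : n ≤ ⌊(M : ℝ) ^ (1 + eta)⌋₊ := by
      apply Nat.le_floor
      calc (n : ℝ) = ((n : ℝ) ^ c) ^ (1 + eta) := by
            rw [← Real.rpow_mul hn0.le, hcη, Real.rpow_one]
        _ ≤ (M : ℝ) ^ (1 + eta) := Real.rpow_le_rpow (by positivity) hM1 (by unfold eta; norm_num)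
    have hpt : ∀ p ∈ cl x n, ‖(⟨(p.1 : ℝ), (p.2 : ℝ)⟩ : ℂ)‖ ≤
        (1 + (t₂ - t₁)) * (2 * ((n : ℝ) ^ c + 1)) := by
      intro p hp
      have h1 := hM0 M hM3 p (cl_mono x hnN hp)
      have h2 := WS_bound t₁ t₂ ht₁ ht₂ p (cl_sub _ hW0 x n (fun i _ => hx i) p hp)
      have h3 : (p.1 : ℝ) ≤ 2 * M := by exact_mod_cast h1.le
      have h4 : (p.1 : ℝ) ≤ 2 * ((n : ℝ) ^ c + 1) := by linarith
      refine h2.trans (mul_le_mul_of_nonneg_left h4 (by linarith))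
    unfold diam
    refine Metric.diam_le_of_forall_dist_le (by positivity) ?_
    rintro _ ⟨p, hp, rfl⟩ _ ⟨q, hq, rfl⟩
    rw [dist_eq_norm]
    refine (norm_sub_le _ _).trans ?_
    have h5 := hpt p hp
    have h6 := hpt q hq
    simp only at h5 h6 ⊢
    rw [hD]
    linarith
  have hten : Tendsto (fun n : ℕ => diam (cl x n) / (n : ℝ) ^ β) atTop (nhds 0) := by
    have h1 : Tendsto (fun n : ℕ => D * ((n : ℝ) ^ (-(β - c)) + (n : ℝ) ^ (-β))) atTop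
        (nhds (D * (0 + 0))) := by
      refine Tendsto.const_mul _ (Tendsto.add ?_ ?_)
      · exact (tendsto_rpow_neg_atTop (by linarith)).comp tendsto_natCast_atTop_atTop
      · exact (tendsto_rpow_neg_atTop (by linarith)).comp tendsto_natCast_atTop_atTop
    rw [add_zero, mul_zero] at h1
    refine squeeze_zero' ?_ ?_ h1
    · refine Eventually.of_forall fun n => ?_
      unfold diam
      positivity
    · filter_upwards [hdiam, eventually_ge_atTop 1] with n hn hn1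
      have hn0 : (0 : ℝ) < n := by exact_mod_cast hn1
      rw [div_le_iff₀ (by positivity)]
      refine hn.trans (le_of_eq ?_)
      have e1 : (n : ℝ) ^ (-(β - c)) * (n : ℝ) ^ β = (n : ℝ) ^ c := by
        rw [← Real.rpow_add hn0]; ring_nf
      have e2 : (n : ℝ) ^ (-β) * (n : ℝ) ^ β = 1 := by
        rw [← Real.rpow_add hn0]; simp
      calc D * ((n : ℝ) ^ c + 1) = D * ((n : ℝ) ^ (-(β - c)) * (n : ℝ) ^ β +
            (n : ℝ) ^ (-β) * (n : ℝ) ^ β) := by rw [e1, e2]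
        _ = _ := by ring
  have hten2 : Tendsto (fun n : ℕ => ENNReal.ofReal (diam (cl x n) / (n : ℝ) ^ β)) atTop
      (nhds 0) := by
    have := ENNReal.tendsto_ofReal hten
    rwa [ENNReal.ofReal_zero] at this
  rw [hten2.limsup_eq] at hlim
  exact lt_irrefl _ hlim

/-- The growth rate of DLA in any wedge (with both angles of absolute value less than `π/2`) is
almost surely at most `1999/2000`. -/
theorem growth_bound {Ω : Type*} [MeasurableSpace Ω] (P : Measure Ω) [IsProbabilityMeasure P]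
    (θ₁ θ₂ : ℝ) (h1 : -(Real.pi / 2) < θ₁) (h10 : θ₁ ≤ 0) (h20 : 0 ≤ θ₂)
    (h2 : θ₂ < Real.pi / 2) (h12 : θ₁ < θ₂) (a : ℕ → Ω → ℤ × ℤ)
    (hD : IsDLA (wedge θ₁ θ₂) P a) : ∀ᵐ ω ∂P, gr (fun n => a n ω) ≤ 1999 / 2000 := by
  rw [wedge_eq θ₁ θ₂ h1 h10 h20 h2] at hD
  have ht₁ : Real.tan θ₁ ≤ 0 := Real.tan_nonpos_of_nonpos_of_neg_pi_div_two_le h10 h1.le
  have ht₂ : 0 ≤ Real.tan θ₂ := Real.tan_nonneg_of_nonneg_of_le_pi_div_two h20 h2.le
  have ht : Real.tan θ₁ < Real.tan θ₂ := Real.tan_lt_tan_of_lt_of_lt_pi_div_two h1 h2 h12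
  filter_upwards [ae_radius P a _ _ ht₁ ht₂ ht hD, ae_all_iff.mpr hD.mem] with ω hω1 hω2
  exact gr_le _ _ ht₁ ht₂ (fun n => a n ω) hω2 hω1

end Det

end Pool.Agent.H27R3.DLA
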