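import Mathlib
import Pool.Agent.H27R3.DLA.Exist

set_option autoImplicit false
open scoped Classical Topology ENNReal
open Finset Filter MeasureTheory ProbabilityTheory

namespace Pool.Agent.H27R3.DLA

section Proc

variable (t₁ t₂ : ℝ)

/-- harmonic measure from infinity, as a measure -/
noncomputable def hmeas (B : Finset (ℤ × ℤ)) : Measure (ℤ × ℤ) :=
  ∑ y ∈ B, ENNReal.ofReal (Hm t₁ t₂ B y) • Measure.dirac y

theorem hmeas_univ (ht₁ : t₁ ≤ 0) (ht₂ : 0 ≤ t₂) (B : Finset (ℤ × ℤ))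
    (hB : ∀ b ∈ B, b ∈ WS t₁ t₂) (hne : B.Nonempty) :
    hmeas t₁ t₂ B Set.univ = 1 := by
  unfold hmeas
  rw [Measure.finsetSum_apply]
  simp only [Measure.smul_apply, measure_univ, smul_eq_mul, mul_one]
  rw [← ENNReal.ofReal_sum_of_nonneg fun y hy => Hm_nonneg t₁ t₂ ht₁ ht₂ B hB hne y hy,
    Hm_sum t₁ t₂ ht₁ ht₂ B hB hne, ENNReal.ofReal_one]

theorem hmeas_singleton (B : Finset (ℤ × ℤ)) (y : ℤ × ℤ) (hy : y ∈ B) :
    hmeas t₁ t₂ B {y} = ENNReal.ofReal (Hm t₁ t₂ B y) := by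
  unfold hmeas
  rw [Measure.finsetSum_apply, sum_eq_single y]
  · simp
  · intro b _ hb
    simp [hb]
  · intro h
    exact absurd hy h

theorem hmeas_compl (B : Finset (ℤ × ℤ)) (s : Set (ℤ × ℤ)) (hs : ∀ b ∈ B, b ∉ s) :
    hmeas t₁ t₂ B s = 0 := by
  unfold hmeas
  rw [Measure.finsetSum_apply]
  refine sum_eq_zero fun b hb => ?_
  rw [Measure.smul_apply, Measure.dirac_apply' _ (Set.to_countable s).measurableSet,
    Set.indicator_of_notMem (hs b hb), smul_zero]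

/-- the points `1, …, n` of a trajectory -/
noncomputable def hist (n : ℕ) (x : Π _ : Iic n, ℤ × ℤ) : ℕ → ℤ × ℤ :=
  fun i => if h : i + 1 ≤ n then x ⟨i + 1, mem_Iic.mpr h⟩ else (0, 0)

/-- transition kernels of DLA -/
noncomputable def ker (n : ℕ) : Kernel (Π _ : Iic n, ℤ × ℤ) (ℤ × ℤ) :=
  Kernel.ofFunOfCountable fun x => hmeas t₁ t₂ (bdry (WS t₁ t₂) (cl (hist n x) n))

theorem ker_apply (n : ℕ) (x : Π _ : Iic n, ℤ × ℤ) :
    ker t₁ t₂ n x = hmeas t₁ t₂ (bdry (WS t₁ t₂) (cl (hist n x) n)) := rfl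

theorem zero_mem_cl (h : ℕ → ℤ × ℤ) (n : ℕ) : ((0 : ℤ), (0 : ℤ)) ∈ cl h n :=
  mem_insert_self _ _

/-- DLA exists in every wedge -/
theorem exists_DLA (ht₁ : t₁ ≤ 0) (ht₂ : 0 ≤ t₂) :
    ∃ P : Measure (ℕ → ℤ × ℤ), IsProbabilityMeasure P ∧
      IsDLA (WS t₁ t₂) P (fun n ω => ω (n + 1)) := by
  have hM : ∀ n, IsMarkovKernel (ker t₁ t₂ n) := fun n => ⟨fun x => ⟨by
    rw [ker_apply]
    exact hmeas_univ t₁ t₂ ht₁ ht₂ _ (bdry_sub t₁ t₂ _)
      (bdry_nonempty t₁ t₂ ht₁ ht₂ _ (zero_mem_cl _ _))⟩⟩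
  set P : Measure (ℕ → ℤ × ℤ) :=
    Kernel.trajMeasure (X := fun _ => ℤ × ℤ) (Measure.dirac ((0 : ℤ), (0 : ℤ))) (ker t₁ t₂) with hP
  have hPprob : IsProbabilityMeasure P := by rw [hP]; infer_instance
  have hmeasr : ∀ n : ℕ, Measurable (fun x : ℕ → ℤ × ℤ =>
      ((Preorder.frestrictLe n x : Π _ : Iic n, ℤ × ℤ), x (n + 1))) := by
    intro n
    fun_prop
  have hkey : ∀ (n : ℕ) (s : Set ((Π _ : Iic n, ℤ × ℤ) × (ℤ × ℤ))),
      P {x : ℕ → ℤ × ℤ | ((Preorder.frestrictLe n x : Π _ : Iic n, ℤ × ℤ), x (n + 1)) ∈ s} =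
      ∫⁻ x', ker t₁ t₂ n x' (Prod.mk x' ⁻¹' s) ∂(P.map (Preorder.frestrictLe n)) := by
    intro n s
    have hs : MeasurableSet s := (Set.to_countable s).measurableSet
    rw [← Measure.compProd_apply hs, hP,
      Kernel.map_frestrictLe_trajMeasure_compProd_eq_map_trajMeasure,
      Measure.map_apply (hmeasr n) hs]
    rfl
  refine ⟨P, hPprob, ⟨fun n => measurable_pi_apply _, ?_, ?_⟩⟩
  · intro n
    rw [ae_iff]
    have e : {ω : ℕ → ℤ × ℤ | ¬ ω (n + 1) ∈ bdry (WS t₁ t₂) (cl (fun i => ω (i + 1)) n)} =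
        {x : ℕ → ℤ × ℤ | ((Preorder.frestrictLe n x : Π _ : Iic n, ℤ × ℤ), x (n + 1)) ∈
          {p : (Π _ : Iic n, ℤ × ℤ) × (ℤ × ℤ) | p.2 ∉ bdry (WS t₁ t₂) (cl (hist n p.1) n)}} := by
      ext ω
      simp only [Set.mem_ofPred_eq]
      rw [cl_congr (fun i => ω (i + 1)) (hist n (Preorder.frestrictLe n ω)) n]
      intro i hi
      unfold hist
      rw [dif_pos (by omega)]
      rfl
    rw [e, hkey]
    refine (lintegral_congr fun x' => ?_).trans lintegral_zero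
    rw [ker_apply]
    refine hmeas_compl t₁ t₂ _ _ fun b hb hb2 => ?_
    simp only [Set.mem_preimage, Set.mem_ofPred_eq] at hb2
    exact hb2 hb
  · intro n h h0 y hy
    have hne := bdry_nonempty t₁ t₂ ht₁ ht₂ _ (zero_mem_cl h n)
    refine ⟨Hm t₁ t₂ (bdry (WS t₁ t₂) (cl h n)) y,
      Hm_spec t₁ t₂ ht₁ ht₂ _ (bdry_sub t₁ t₂ _) hne y hy, ?_⟩
    set S : Set (Π _ : Iic n, ℤ × ℤ) := {x' | ∀ i < n, hist n x' i = h i} with hS
    have hSm : MeasurableSet S := (Set.to_countable S).measurableSet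
    have hiff : ∀ ω : ℕ → ℤ × ℤ, (∀ i < n, ω (i + 1) = h i) ↔
        (Preorder.frestrictLe n ω : Π _ : Iic n, ℤ × ℤ) ∈ S := by
      intro ω
      rw [hS, Set.mem_ofPred_eq]
      refine forall₂_congr fun i hi => ?_
      unfold hist
      rw [dif_pos (by omega)]
      rfl
    have e1 : {ω : ℕ → ℤ × ℤ | (∀ i < n, ω (i + 1) = h i) ∧ ω (n + 1) = y} =
        {x : ℕ → ℤ × ℤ | ((Preorder.frestrictLe n x : Π _ : Iic n, ℤ × ℤ), x (n + 1)) ∈ S ×ˢ {y}} := by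
      ext ω
      simp only [Set.mem_ofPred_eq, Set.mem_prod, Set.mem_singleton_iff]
      rw [hiff]
    have e2 : {ω : ℕ → ℤ × ℤ | ∀ i < n, ω (i + 1) = h i} = Preorder.frestrictLe n ⁻¹' S := by
      ext ω
      exact hiff ω
    rw [e1, e2, hkey]
    have e3 : ∀ x' : Π _ : Iic n, ℤ × ℤ, ker t₁ t₂ n x' (Prod.mk x' ⁻¹' (S ×ˢ {y})) =
        S.indicator (fun _ => ENNReal.ofReal (Hm t₁ t₂ (bdry (WS t₁ t₂) (cl h n)) y)) x' := by
      intro x'
      by_cases hx : x' ∈ S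
      · rw [Set.indicator_of_mem hx, ker_apply]
        have : Prod.mk x' ⁻¹' (S ×ˢ {y}) = {y} := by
          ext w
          simp [hx]
        rw [this, cl_congr (hist n x') h n hx]
        exact hmeas_singleton t₁ t₂ _ y hy
      · rw [Set.indicator_of_notMem hx]
        have : Prod.mk x' ⁻¹' (S ×ˢ {y}) = ∅ := by
          ext w
          simp [hx]
        rw [this, measure_empty]
    rw [lintegral_congr e3, lintegral_indicator hSm, setLIntegral_const,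
      Measure.map_apply (by fun_prop) hSm, mul_comm]

end Proc

end Pool.Agent.H27R3.DLA
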